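import Mathlib
import Pool.Agent.Lib.SignAlternation

/-!
# One step of the monodromy: multiplication by a rational function at the nodes of a flag

The main result `step_alt` is a Descartes rule of signs for a dependency between rational
functions at `n` nodes.
-/

set_option autoImplicit false

namespace Pool.Agent.Secant6

open Finset Pool.Agent.SignAlternation

/-- Descartes step; a variant of `alt_succ` where some of the coefficients `α` may vanish. -/
lemma alt_succ' {d c α β : ℕ → ℝ} {n k : ℕ}
    (hα : ∀ i < n, 0 ≤ α i) (hβ : ∀ i < n, 0 < β i)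
    (h0 : c 0 = -(β 0 * d 0))
    (hs : ∀ i < n, c (i + 1) = α i * d i - β (i + 1) * d (i + 1))
    (hz : d n = 0)
    (hlast : ∃ j < n, 0 < α j ∧ d j ≠ 0 ∧ ∀ i, j < i → i < n → d i = 0)
    (h : Alt d n k) : Alt c (n + 1) (k + 1) := by
  classical
  obtain ⟨i, s, h1, h2, h3⟩ := h
  have hmono := strict_of_step h1
  have hin : ∀ j ≤ k, i j < n := by
    intro j hj
    rcases Nat.lt_or_ge j k with h | h
    · exact lt_trans (hmono j k h le_rfl) h2
    · have : j = k := by omega
      subst this; exact h2
  -- sign statement for an interior index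
  have key : ∀ j ≤ k + 1, ∃ p, (∀ j', j = j' + 1 → i j' < p) ∧ (j ≤ k → p ≤ i j) ∧ p ≤ n ∧
      0 < (-s) * (-1) ^ j * c p := by
    intro j hj
    rcases Nat.eq_zero_or_pos j with rfl | hjpos
    · -- first index
      have hpos : 0 < s * d (i 0) := by simpa using h3 0 (by omega)
      have hex : ∃ p, 0 < s * d p := ⟨i 0, hpos⟩
      refine ⟨Nat.find hex, by intro j' hj'; omega, fun _ => Nat.find_min' hex hpos, ?_, ?_⟩
      · exact le_trans (Nat.find_min' hex hpos) (le_of_lt (hin 0 (by omega)))
      · have hp := Nat.find_spec hex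
        have hple : Nat.find hex ≤ i 0 := Nat.find_min' hex hpos
        have hpn : Nat.find hex < n := lt_of_le_of_lt hple (hin 0 (by omega))
        rcases Nat.eq_zero_or_pos (Nat.find hex) with hp0 | hp0
        · rw [hp0] at hp ⊢
          rw [h0]
          have hn : 0 < n := by omega
          have : -s * (-1) ^ 0 * -(β 0 * d 0) = β 0 * (s * d 0) := by ring
          rw [this]; exact mul_pos (hβ 0 hn) hp
        · obtain ⟨q, hq⟩ : ∃ q, Nat.find hex = q + 1 := ⟨Nat.find hex - 1, by omega⟩
          have hq' : ¬ 0 < s * d q := Nat.find_min hex (by omega)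
          rw [hq] at hp hpn ⊢
          rw [hs q (by omega)]
          have e : -s * (-1) ^ 0 * (α q * d q - β (q + 1) * d (q + 1)) =
            β (q + 1) * (s * d (q + 1)) - α q * (s * d q) := by ring
          rw [e]
          have := mul_pos (hβ (q + 1) hpn) hp
          have := mul_nonpos_of_nonneg_of_nonpos (hα q (by omega)) (not_lt.mp hq')
          linarith
    · obtain ⟨j', rfl⟩ : ∃ j', j = j' + 1 := ⟨j - 1, by omega⟩
      rcases Nat.lt_or_ge j' k with hjk | hjk
      · -- interior crossing between i j' and i (j'+1)
        set σ : ℝ := s * (-1) ^ (j' + 1) with hσ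
        have ha : σ * d (i j') ≤ 0 := by
          have := h3 j' (by omega)
          have e : σ * d (i j') = -(s * (-1) ^ j' * d (i j')) := by rw [hσ]; ring
          rw [e]; linarith
        have hb : 0 < σ * d (i (j' + 1)) := h3 (j' + 1) (by omega)
        obtain ⟨p, hp1, hp2, hp3, hp4⟩ :=
          exists_enter (fun q => σ * d q) (h1 j' hjk) ha hb
        have hpn : p < n := lt_of_le_of_lt hp2 (hin (j' + 1) (by omega))
        obtain ⟨q, rfl⟩ : ∃ q, p = q + 1 := ⟨p - 1, by omega⟩
        refine ⟨q + 1, ?_, fun _ => hp2, le_of_lt hpn, ?_⟩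
        · intro j'' hj''
          have : j'' = j' := by omega
          subst this; exact hp1
        · rw [hs q (by omega)]
          simp only [Nat.add_sub_cancel] at hp3
          have e : -s * (-1) ^ (j' + 1) * (α q * d q - β (q + 1) * d (q + 1)) =
            β (q + 1) * (σ * d (q + 1)) - α q * (σ * d q) := by rw [hσ]; ring
          rw [e]
          have := mul_pos (hβ (q + 1) hpn) hp4
          have := mul_nonpos_of_nonneg_of_nonpos (hα q (by omega)) hp3
          linarith
      · -- last crossing
        have hjk' : j' = k := by omega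
        subst hjk'
        set σ : ℝ := s * (-1) ^ j' with hσ
        have ha : 0 < σ * d (i j') := h3 j' le_rfl
        by_cases hneg : ∃ p, i j' < p ∧ p < n ∧ σ * d p < 0
        · have hex : ∃ p, i j' < p ∧ σ * d p < 0 := by
            obtain ⟨p, h4, -, h5⟩ := hneg
            exact ⟨p, h4, h5⟩
          have hp := Nat.find_spec hex
          obtain ⟨p', h4, h4', h5⟩ := hneg
          have hple : Nat.find hex ≤ p' := Nat.find_min' hex ⟨h4, h5⟩
          obtain ⟨q, hq⟩ : ∃ q, Nat.find hex = q + 1 := ⟨Nat.find hex - 1, by omega⟩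
          have hq0 : 0 ≤ σ * d q := by
            rcases Nat.lt_or_ge (i j') q with h6 | h6
            · have := Nat.find_min hex (m := q) (by omega)
              by_contra hcon
              exact this ⟨h6, not_le.mp hcon⟩
            · have : q = i j' := by omega
              rw [this]; exact ha.le
          rw [hq] at hp hple
          refine ⟨q + 1, ?_, fun h => by omega, by omega, ?_⟩
          · intro j'' hj''
            have : j'' = j' := by omega
            subst this; exact hp.1
          · rw [hs q (by omega)]
            have e : -s * (-1) ^ (j' + 1) * (α q * d q - β (q + 1) * d (q + 1)) =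
              α q * (σ * d q) + β (q + 1) * (-(σ * d (q + 1))) := by rw [hσ]; ring
            rw [e]
            have h7 := mul_nonneg (hα q (by omega)) hq0
            have h8 := mul_pos (hβ (q + 1) (by omega)) (neg_pos.mpr hp.2)
            linarith
        · push Not at hneg
          obtain ⟨j, hjn, hαj, hdj, hjlast⟩ := hlast
          have hij : i j' ≤ j := by
            by_contra hcon
            have := hjlast (i j') (by omega) h2
            rw [this] at ha; simp at ha
          have hpos : 0 < σ * d j := by
            rcases Nat.lt_or_ge (i j') j with h6 | h6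
            · have h7 := hneg j h6 hjn
              rcases h7.lt_or_eq with h8 | h8
              · exact h8
              · exfalso
                have hσ0 : σ ≠ 0 := by rintro h9; rw [h9] at ha; simp at ha
                rcases mul_eq_zero.mp h8.symm with h9 | h9
                · exact hσ0 h9
                · exact hdj h9
            · have : j = i j' := by omega
              rw [this]; exact ha
          have hnext : d (j + 1) = 0 := by
            rcases Nat.lt_or_ge (j + 1) n with h6 | h6
            · exact hjlast (j + 1) (by omega) h6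
            · have : j + 1 = n := by omega
              rw [this, hz]
          refine ⟨j + 1, ?_, fun h => by omega, by omega, ?_⟩
          · intro j'' hj''
            have : j'' = j' := by omega
            subst this; omega
          · rw [hs j hjn, hnext]
            have e : -s * (-1) ^ (j' + 1) * (α j * d j - β (j + 1) * 0) =
              α j * (σ * d j) := by rw [hσ]; ring
            rw [e]
            exact mul_pos hαj hpos
  choose! p hp1 hp2 hp3 hp4 using key
  refine ⟨p, -s, ?_, ?_, hp4⟩
  · intro j hj
    exact lt_of_le_of_lt (hp2 j (by omega) (by omega)) (hp1 (j + 1) (by omega) j rfl)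
  · exact Nat.lt_succ_of_le (hp3 (k + 1) le_rfl)

/-- Backward summation. -/
lemma exists_suffix (lam x : ℕ → ℝ) (K : ℕ) :
    ∃ X : ℕ → ℝ, (∀ k, K ≤ k → X k = 0) ∧ ∀ k < K, x k = X k - lam (k + 1) * X (k + 1) := by
  let f : ℕ → ℝ := fun r => Nat.rec 0 (fun r y => x (K - 1 - r) + lam (K - r) * y) r
  have hf0 : f 0 = 0 := rfl
  have hf : ∀ r, f (r + 1) = x (K - 1 - r) + lam (K - r) * f r := fun r => rfl
  refine ⟨fun k => f (K - k), ?_, ?_⟩
  · intro k hk
    have : K - k = 0 := by omega
    simp only [this, hf0]
  · intro k hk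
    obtain ⟨r, hr⟩ : ∃ r, K - k = r + 1 := ⟨K - k - 1, by omega⟩
    have h1 : K - (k + 1) = r := by omega
    have h2 : K - 1 - r = k := by omega
    have h3 : K - r = k + 1 := by omega
    simp only [hr, h1, hf, h2, h3]
    ring

/-- The functions on the source side of a step. -/
noncomputable def G (Y Z : ℕ → ℝ → ℝ) (n k : ℕ) (v : ℝ) : ℝ :=
  (∏ l ∈ range (n + k), Y l v) / ∏ l ∈ range (k + 1), Z l v

/-- The functions on the target side of a step. -/
noncomputable def E (Y U : ℕ → ℝ → ℝ) (n p : ℕ) (v : ℝ) : ℝ :=
  (∏ l ∈ range p, U l v) * ∏ l ∈ range (n - 1 - p), Y l v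

/-- The combined sequence. -/
noncomputable def comb (n : ℕ) (x' x : ℕ → ℝ) : ℕ → ℝ :=
  fun i => if i < n then (-1) ^ (n - i) * x' (n - 1 - i) else x (i - n)

/-- **The step theorem.** A dependency between the functions `G 0, …, G (K-1)` and
`E 0, …, E (n-1)` at the `n` nodes has at least `n` sign changes. -/
theorem step_alt (Y Z : ℕ → ℝ → ℝ) (K : ℕ) : ∀ (n : ℕ) (U : ℕ → ℝ → ℝ) (ν : ℕ → ℝ)
    (lam mu : ℕ → ℕ → ℕ → ℝ)
    (_ : ∀ l k, ∀ j < n, 0 < lam l k j) (_ : ∀ l k, ∀ j < n, 0 < mu l k j)
    (_ : ∀ l k, ∀ j < n, ∀ v, Y l v = lam l k j * Z k v + mu l k j * U j v)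
    (_ : ∀ j < n, U j (ν j) = 0) (_ : ∀ i < n, ∀ j < n, i ≠ j → U j (ν i) ≠ 0)
    (_ : ∀ k, ∀ j < n, Z k (ν j) ≠ 0)
    (x x' : ℕ → ℝ) (_ : ∃ k < K, x k ≠ 0)
    (_ : ∀ j < n, ∑ k ∈ range K, x k * G Y Z n k (ν j) =
      ∑ p ∈ range n, x' p * E Y U n p (ν j)),
    Alt (comb n x' x) (n + K) n := by
  intro n
  induction n with
  | zero =>
    intro U ν lam mu _ _ _ _ _ _ x x' hx _
    obtain ⟨k, hk, hxk⟩ := hx
    refine alt_zero_of_ne (i := k) (by omega) ?_
    simpa [comb] using hxk
  | succ n ih =>
    intro U ν lam mu hlam hmu hrel hU0 hU hZ x x' hx h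
    set lam' : ℕ → ℝ := fun k => lam (n + k) k 0 with hlam'
    set mu' : ℕ → ℝ := fun k => mu (n + k) k 0 with hmu'
    have hl' : ∀ k, 0 < lam' k := fun k => hlam _ _ 0 (by omega)
    have hm' : ∀ k, 0 < mu' k := fun k => hmu _ _ 0 (by omega)
    obtain ⟨X, hX0, hX⟩ := exists_suffix lam' x K
    set H : ℕ → ℝ → ℝ := fun k v => (∏ l ∈ range (n + k), Y l v) / ∏ l ∈ range k, Z l v with hH
    have hH0 : ∀ v, H 0 v = ∏ l ∈ range n, Y l v := by
      intro v; simp [hH]
    have hGH : ∀ k v, G Y Z (n + 1) k v = H (k + 1) v := by
      intro k v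
      simp only [G, hH]
      rw [show n + 1 + k = n + (k + 1) by ring]
    have hstep : ∀ k v, Z k v ≠ 0 →
        H (k + 1) v = lam' k * H k v + mu' k * (U 0 v * G Y Z n k v) := by
      intro k v hz
      have e1 : H (k + 1) v = H k v * (Y (n + k) v / Z k v) := by
        simp only [hH]
        rw [show n + (k + 1) = n + k + 1 by ring, prod_range_succ, prod_range_succ]
        rw [mul_div_mul_comm]
      have e2 : G Y Z n k v = H k v / Z k v := by
        simp only [hH, G]
        rw [prod_range_succ (fun l => Z l v) k, div_div]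
      have e3 : Y (n + k) v = lam' k * Z k v + mu' k * U 0 v := hrel (n + k) k 0 (by omega) v
      rw [e1, e2, e3]
      field_simp
    have hsum : ∀ v, (∀ k, Z k v ≠ 0) → ∑ k ∈ range K, x k * G Y Z (n + 1) k v =
        lam' 0 * X 0 * H 0 v + U 0 v * ∑ k ∈ range K, (mu' k * X k) * G Y Z n k v := by
      intro v hv
      have e1 : ∀ k ∈ range K, x k * G Y Z (n + 1) k v =
          (lam' k * X k * H k v - lam' (k + 1) * X (k + 1) * H (k + 1) v) +
          U 0 v * ((mu' k * X k) * G Y Z n k v) := by
        intro k hk
        rw [hGH, hX k (mem_range.mp hk)]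
        have := hstep k v (hv k)
        calc (X k - lam' (k + 1) * X (k + 1)) * H (k + 1) v
            = X k * H (k + 1) v - lam' (k + 1) * X (k + 1) * H (k + 1) v := by ring
          _ = X k * (lam' k * H k v + mu' k * (U 0 v * G Y Z n k v))
              - lam' (k + 1) * X (k + 1) * H (k + 1) v := by rw [← this]
          _ = _ := by ring
      rw [sum_congr rfl e1, sum_add_distrib, ← mul_sum,
        sum_range_sub' (fun k => lam' k * X k * H k v)]
      rw [hX0 K le_rfl]
      ring
    have hEs : ∀ v, ∑ p ∈ range (n + 1), x' p * E Y U (n + 1) p v =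
        x' 0 * H 0 v + U 0 v * ∑ p ∈ range n, x' (p + 1) * E Y (fun j => U (j + 1)) n p v := by
      intro v
      rw [sum_range_succ', mul_sum, add_comm]
      congr 1
      · simp [E, hH]
      · refine sum_congr rfl fun p hp => ?_
        have hpn := mem_range.mp hp
        simp only [E]
        rw [prod_range_succ', show n + 1 - 1 - (p + 1) = n - 1 - p by omega]
        ring
    have hYne : ∀ l, ∀ j < n + 1, Y l (ν j) ≠ 0 := by
      intro l j hj
      rw [hrel l 0 j hj, hU0 j hj, mul_zero, add_zero]
      exact mul_ne_zero (hlam l 0 j hj).ne' (hZ 0 j hj)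
    have hx0 : x' 0 = lam' 0 * X 0 := by
      have h1 := h 0 (by omega)
      rw [hsum _ (fun k => hZ k 0 (by omega)), hEs, hU0 0 (by omega)] at h1
      simp only [zero_mul, add_zero] at h1
      have h2 : H 0 (ν 0) ≠ 0 := by
        rw [hH0, prod_ne_zero_iff]
        intro l _
        exact hYne l 0 (by omega)
      exact (mul_right_cancel₀ h2 h1).symm
    have hrest : ∀ j < n, ∑ k ∈ range K, (mu' k * X k) * G Y Z n k (ν (j + 1)) =
        ∑ p ∈ range n, x' (p + 1) * E Y (fun j => U (j + 1)) n p (ν (j + 1)) := by
      intro j hj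
      have h1 := h (j + 1) (by omega)
      rw [hsum _ (fun k => hZ k (j + 1) (by omega)), hEs, hx0] at h1
      have h2 : U 0 (ν (j + 1)) ≠ 0 := hU (j + 1) (by omega) 0 (by omega) (by omega)
      exact mul_left_cancel₀ h2 (add_left_cancel h1)
    -- the sequence X is not zero
    have hXne : ∃ k < K, X k ≠ 0 := by
      by_contra hcon
      push Not at hcon
      obtain ⟨k, hk, hxk⟩ := hx
      apply hxk
      rw [hX k hk, hcon k hk]
      rcases Nat.lt_or_ge (k + 1) K with h1 | h1
      · rw [hcon _ h1]; simp
      · rw [hX0 _ h1]; simp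
    have hIH := ih (fun j => U (j + 1)) (fun j => ν (j + 1)) (fun l k j => lam l k (j + 1))
      (fun l k j => mu l k (j + 1)) (fun l k j hj => hlam l k (j + 1) (by omega))
      (fun l k j hj => hmu l k (j + 1) (by omega))
      (fun l k j hj v => hrel l k (j + 1) (by omega) v)
      (fun j hj => hU0 (j + 1) (by omega))
      (fun i hi j hj hij => hU (i + 1) (by omega) (j + 1) (by omega) (by omega))
      (fun k j hj => hZ k (j + 1) (by omega))
      (fun k => mu' k * X k) (fun p => x' (p + 1))
      (by
        obtain ⟨k, hk, h1⟩ := hXne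
        exact ⟨k, hk, mul_ne_zero (hm' k).ne' h1⟩)
      hrest
    -- the last nonzero entry
    have hlast : ∃ j < n + K, n ≤ j ∧ X (j - n) ≠ 0 ∧ ∀ i, j < i → X (i - n) = 0 := by
      classical
      obtain ⟨k, hk, h1⟩ := hXne
      have hbd : ∀ i, X i ≠ 0 → i ≤ K := by
        intro i hi
        by_contra hcon
        exact hi (hX0 i (by omega))
      have h2 := Nat.findGreatest_spec (P := fun i => X i ≠ 0) (n := K) hk.le h1
      set g := Nat.findGreatest (fun i => X i ≠ 0) K with hg
      have h3 : g < K := by
        rcases Nat.lt_or_ge g K with h4 | h4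
        · exact h4
        · exact absurd (hX0 g h4) h2
      refine ⟨n + g, by omega, by omega, by simpa using h2, ?_⟩
      intro i hi
      by_contra hcon
      have h5 := hbd _ hcon
      have := Nat.le_findGreatest (P := fun i => X i ≠ 0) h5 hcon
      omega
    rw [show n + 1 + K = n + K + 1 by ring]
    refine alt_succ' (d := comb n (fun p => x' (p + 1)) (fun k => mu' k * X k))
      (α := fun i => if i < n then 0 else 1 / mu' (i - n))
      (β := fun i => if i < n then 1 else lam' (i - n) / mu' (i - n)) ?_ ?_ ?_ ?_ ?_ ?_ hIH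
    · intro i _
      show (0 : ℝ) ≤ if i < n then 0 else 1 / mu' (i - n)
      split_ifs
      · exact le_rfl
      · exact (div_pos one_pos (hm' _)).le
    · intro i _
      show (0 : ℝ) < if i < n then 1 else lam' (i - n) / mu' (i - n)
      split_ifs
      · exact one_pos
      · exact div_pos (hl' _) (hm' _)
    · rcases Nat.eq_zero_or_pos n with h1 | h1
      · subst h1
        simp only [comb, Nat.lt_irrefl, if_false, Nat.sub_zero]
        rw [if_pos (by omega)]
        simp only [Nat.sub_self, hx0]
        have := (hm' 0).ne'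
        field_simp
        ring
      · simp only [comb, if_pos h1, if_pos (show 0 < n + 1 by omega), Nat.sub_zero]
        rw [show n + 1 - 1 = n - 1 + 1 by omega]
        rw [pow_succ]; ring
    · intro i hi
      rcases lt_trichotomy (i + 1) n with h1 | h1 | h1
      · simp only [comb, if_pos h1, if_pos (show i + 1 < n + 1 by omega),
          if_pos (show i < n by omega)]
        rw [show n + 1 - 1 - (i + 1) = n - 1 - (i + 1) + 1 by omega,
          show n + 1 - (i + 1) = n - (i + 1) + 1 by omega, pow_succ]
        ring
      · simp only [comb, if_pos (show i < n by omega), if_pos (show i + 1 < n + 1 by omega),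
          if_neg (show ¬ (i + 1 < n) by omega)]
        rw [show n + 1 - 1 - (i + 1) = 0 by omega, show n + 1 - (i + 1) = 1 by omega,
          show i + 1 - n = 0 by omega, hx0]
        have := (hm' 0).ne'
        field_simp
        ring
      · simp only [comb, if_neg (show ¬ (i < n) by omega), if_neg (show ¬ (i + 1 < n + 1) by omega),
          if_neg (show ¬ (i + 1 < n) by omega)]
        rw [show i + 1 - (n + 1) = i - n by omega, show i + 1 - n = i - n + 1 by omega,
          hX (i - n) (by omega)]
        have h3 := (hm' (i - n)).ne'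
        have h4 := (hm' (i - n + 1)).ne'
        field_simp
    · simp only [comb, if_neg (show ¬ (n + K < n) by omega)]
      rw [hX0 (n + K - n) (by omega)]; simp
    · obtain ⟨j, hj1, hj2, hj3, hj4⟩ := hlast
      refine ⟨j, hj1, ?_, ?_, ?_⟩
      · show (0 : ℝ) < if j < n then 0 else 1 / mu' (j - n)
        rw [if_neg (by omega)]
        exact div_pos one_pos (hm' _)
      · simp only [comb, if_neg (show ¬ (j < n) by omega)]
        exact mul_ne_zero (hm' _).ne' hj3
      · intro i hi1 _
        simp only [comb, if_neg (show ¬ (i < n) by omega)]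
        rw [hj4 i hi1]; simp

end Pool.Agent.Secant6
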