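import Mathlib
import Pool.Agent.Secant6.Step
import Pool.Agent.Lib.SimpleSpectrum

/-!
# Strict variation diminishing property of one step
-/

set_option autoImplicit false

namespace Pool.Agent.Secant6

open Finset Pool.Agent.SignAlternation

/-- Reversal of a sequence. -/
lemma alt_reverse {x : ℕ → ℝ} {n k : ℕ} (h : Alt x n k) : Alt (fun i => x (n - 1 - i)) n k := by
  obtain ⟨i, s, h1, h2, h3⟩ := h
  have hm := strict_of_step h1
  have hin : ∀ j ≤ k, i j < n := by
    intro j hj
    rcases Nat.lt_or_ge j k with h | h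
    · exact lt_trans (hm j k h le_rfl) h2
    · have : j = k := by omega
      subst this; exact h2
  refine ⟨fun j => n - 1 - i (k - j), s * (-1) ^ k, ?_, ?_, ?_⟩
  · intro j hj
    have h4 := hm (k - (j + 1)) (k - j) (by omega) (by omega)
    have h5 := hin (k - j) (by omega)
    show n - 1 - i (k - j) < n - 1 - i (k - (j + 1))
    omega
  · show n - 1 - i (k - k) < n
    omega
  · intro j hj
    show 0 < s * (-1) ^ k * (-1) ^ j * x (n - 1 - (n - 1 - i (k - j)))
    have h5 := hin (k - j) (by omega)
    rw [show n - 1 - (n - 1 - i (k - j)) = i (k - j) by omega]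
    have h6 := h3 (k - j) (by omega)
    have e : (-1 : ℝ) ^ k * (-1) ^ j = (-1) ^ (k - j) := by
      obtain ⟨d, rfl⟩ : ∃ d, k = j + d := ⟨k - j, by omega⟩
      rw [show j + d - j = d by omega, pow_add]
      have : ((-1 : ℝ) ^ j) * ((-1) ^ j) = 1 := by
        rw [← pow_add, ← two_mul, pow_mul]; simp
      calc (-1 : ℝ) ^ j * (-1) ^ d * (-1) ^ j = ((-1 : ℝ) ^ j * (-1) ^ j) * (-1) ^ d := by ring
        _ = _ := by rw [this, one_mul]
    rw [mul_assoc s, e]
    exact h6

/-- Removing a block of zeros. -/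
lemma alt_remove {c c' : ℕ → ℝ} {n d N k : ℕ} (hz : ∀ i, n ≤ i → i < n + d → c i = 0)
    (h1 : ∀ i < n, c' i = c i) (h2 : ∀ i, n ≤ i → c' i = c (i + d))
    (h : Alt c (N + d) k) (hN : n ≤ N) : Alt c' N k := by
  obtain ⟨i, s, h3, h4, h5⟩ := h
  have hm := strict_of_step h3
  have hnz : ∀ j ≤ k, c (i j) ≠ 0 := by
    intro j hj h0
    have := h5 j hj
    rw [h0] at this; simp at this
  have hcase : ∀ j ≤ k, i j < n ∨ n + d ≤ i j := by
    intro j hj
    by_contra hcon
    push Not at hcon
    exact hnz j hj (hz _ hcon.1 hcon.2)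
  refine ⟨fun j => if i j < n then i j else i j - d, s, ?_, ?_, ?_⟩
  · intro j hj
    have h6 := h3 j hj
    have h7 := hcase j (by omega)
    have h8 := hcase (j + 1) (by omega)
    show (if i j < n then i j else i j - d) < (if i (j + 1) < n then i (j + 1) else i (j + 1) - d)
    split_ifs <;> omega
  · have h7 := hcase k le_rfl
    show (if i k < n then i k else i k - d) < N
    split_ifs <;> omega
  · intro j hj
    show 0 < s * (-1) ^ j * c' (if i j < n then i j else i j - d)
    split_ifs with h6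
    · rw [h1 _ h6]; exact h5 j hj
    · have h7 := hcase j hj
      rw [h2 _ (by omega), show i j - d + d = i j by omega]
      exact h5 j hj

/-- The basis functions. -/
noncomputable def bas (σ : ℝ) (t z : ℕ → ℝ) (m k : ℕ) (x : ℝ) : ℝ :=
  σ ^ k * ((∏ l ∈ range k, (x - t l)) * ∏ l ∈ range (m - 1 - k), (x - z l))

/-- One step is strictly variation diminishing. -/
theorem step_vd {m s : ℕ} (hms : m ≤ s) (hm : 0 < m) {σ σ' : ℝ} (hσ : σ * σ = 1)
    (hσ' : σ' * σ' = 1)
    (u y t z : ℕ → ℝ) (hu : ∀ i < m, ∀ j < m, u i = u j → i = j)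
    (hy1 : ∀ l, ∀ k, ∀ j < m, 0 < σ * ((u j - y l) / (u j - z k)))
    (ht1 : ∀ l, ∀ k, ∀ j < m, 0 < σ * ((u j - t l) / (u j - z k)))
    (hy2 : ∀ l, ∀ k, ∀ j < m, 0 < σ' * ((z k - y l) / (z k - u j)))
    (ht2 : ∀ l, ∀ k, ∀ j < m, 0 < σ' * ((z k - t l) / (z k - u j)))
    (x x' : Fin m → ℝ) (hx : x ≠ 0)
    (h : ∀ j < m, (∏ l ∈ range s, (u j - z l)) * ∑ p : Fin m, x' p * bas σ' u y m p (u j) =
      (∏ l ∈ range s, (u j - y l)) * ∑ k : Fin m, x k * bas σ t z m k (u j)) :
    ∃ k l, Alt (ext x) m k ∧ Alt (J (ext x')) m l ∧ m ≤ k + l + 1 := by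
  classical
  obtain ⟨d, hd⟩ : ∃ d, s = m + d := ⟨s - m, by omega⟩
  have hσ0 : σ ≠ 0 := by rintro rfl; simp at hσ
  have hσ0' : σ' ≠ 0 := by rintro rfl; simp at hσ'
  set yt : ℕ → ℝ := fun l => if l < s then y l else t (l - s) with hyt
  set zz : ℕ → ℝ := fun l => z (s - 1 - l) with hzz
  set Yf : ℕ → ℝ → ℝ := fun l v => σ * (v - yt l) with hYf
  set Zf : ℕ → ℝ → ℝ := fun l v => v - zz l with hZf
  set Uf : ℕ → ℝ → ℝ := fun l v => σ' * σ * (v - u l) with hUf
  have hyt1 : ∀ l k, ∀ j < m, 0 < σ * ((u j - yt l) / (u j - zz k)) := by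
    intro l k j hj
    simp only [hyt, hzz]
    split_ifs
    · exact hy1 _ _ j hj
    · exact ht1 _ _ j hj
  have hyt2 : ∀ l k, ∀ j < m, 0 < σ' * ((zz k - yt l) / (zz k - u j)) := by
    intro l k j hj
    simp only [hyt, hzz]
    split_ifs
    · exact hy2 _ _ j hj
    · exact ht2 _ _ j hj
  have hne : ∀ k, ∀ j < m, u j - z k ≠ 0 := by
    intro k j hj h0
    have := hy1 0 k j hj
    rw [h0] at this; simp at this
  have hzne : ∀ k, ∀ j < m, u j - zz k ≠ 0 := fun k j hj => hne _ j hj
  -- the padded sequence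
  set xp : ℕ → ℝ := fun k => if k < d then 0 else ext x (k - d) with hxp
  set c : ℝ := σ ^ (s + (m - 1)) with hc
  have hcc : c * c = 1 := by
    rw [hc, ← mul_pow, hσ, one_pow]
  have hc0 : c ≠ 0 := by rintro h0; rw [h0] at hcc; simp at hcc
  set xq : ℕ → ℝ := fun p => c * ext x' p with hxq
  have hdep : ∀ j < m, ∑ k ∈ range s, xp k * G Yf Zf m k (u j) =
      ∑ p ∈ range m, xq p * E Yf Uf m p (u j) := by
    intro j hj
    have hZprod : (∏ l ∈ range s, (u j - z l)) ≠ 0 := prod_ne_zero_iff.mpr fun l _ => hne l j hj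
    -- the source functions
    have e1 : ∀ k < m, (∏ l ∈ range s, (u j - z l)) * G Yf Zf m (d + k) (u j) =
        σ ^ s * ((∏ l ∈ range s, (u j - y l)) * bas σ t z m k (u j)) := by
      intro k hk
      have e2 : (∏ l ∈ range (m + (d + k)), Yf l (u j)) =
          σ ^ (s + k) * ((∏ l ∈ range s, (u j - y l)) * ∏ l ∈ range k, (u j - t l)) := by
        rw [show m + (d + k) = s + k by omega]
        simp only [hYf]
        rw [prod_mul_distrib, prod_const, card_range, prod_range_add]
        congr 2
        · refine prod_congr rfl fun l hl => ?_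
          simp only [hyt]
          rw [if_pos (mem_range.mp hl)]
        · refine prod_congr rfl fun l _ => ?_
          simp only [hyt]
          rw [if_neg (by omega), show s + l - s = l by omega]
      have e3 : (∏ l ∈ range (d + k + 1), Zf l (u j)) * ∏ l ∈ range (m - 1 - k), (u j - z l) =
          ∏ l ∈ range s, (u j - z l) := by
        have e4 : (∏ l ∈ range s, (u j - z l)) =
            (∏ l ∈ range (m - 1 - k), (u j - z l)) *
              ∏ l ∈ range (d + k + 1), (u j - z (m - 1 - k + l)) := by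
          rw [← prod_range_add (fun l => (u j - z l : ℝ)) (m - 1 - k) (d + k + 1)]
          congr 2
          omega
        have e5 : (∏ l ∈ range (d + k + 1), Zf l (u j)) =
            ∏ l ∈ range (d + k + 1), (u j - z (m - 1 - k + l)) := by
          rw [← prod_range_reflect (fun l => (u j - z (m - 1 - k + l) : ℝ)) (d + k + 1)]
          refine prod_congr rfl fun l hl => ?_
          have := mem_range.mp hl
          simp only [hZf, hzz]
          congr 2
          omega
        rw [e4, e5, mul_comm]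
      have e5 : (∏ l ∈ range (d + k + 1), Zf l (u j)) ≠ 0 :=
        prod_ne_zero_iff.mpr fun l _ => hzne l j hj
      rw [G, e2, ← e3, bas]
      rw [show s + k = s + k from rfl, pow_add]
      field_simp
    have e6 : ∀ p, p < m → E Yf Uf m p (u j) = σ ^ (m - 1) * bas σ' u y m p (u j) := by
      intro p hp
      rw [E, bas]
      simp only [hUf, hYf]
      simp only [prod_mul_distrib, prod_const, card_range]
      have e7 : (∏ l ∈ range (m - 1 - p), (u j - yt l)) = ∏ l ∈ range (m - 1 - p), (u j - y l) := by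
        refine prod_congr rfl fun l hl => ?_
        have := mem_range.mp hl
        simp only [hyt]
        rw [if_pos (by omega)]
      rw [e7]
      have e8 : σ ^ (m - 1) = σ ^ p * σ ^ (m - 1 - p) := by rw [← pow_add]; congr 1; omega
      rw [e8]; ring
    have e9 : ∑ k ∈ range s, xp k * G Yf Zf m k (u j) =
        ∑ k ∈ range m, ext x k * G Yf Zf m (d + k) (u j) := by
      rw [show s = d + m by omega, sum_range_add]
      have : ∑ k ∈ range d, xp k * G Yf Zf m k (u j) = 0 := by
        refine sum_eq_zero fun k hk => ?_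
        simp only [hxp]
        rw [if_pos (mem_range.mp hk), zero_mul]
      rw [this, zero_add]
      refine sum_congr rfl fun k _ => ?_
      simp only [hxp]
      rw [if_neg (by omega), show d + k - d = k by omega]
    have e10 : (∏ l ∈ range s, (u j - z l)) * ∑ k ∈ range m, ext x k * G Yf Zf m (d + k) (u j) =
        σ ^ s * ((∏ l ∈ range s, (u j - y l)) * ∑ k : Fin m, x k * bas σ t z m k (u j)) := by
      rw [mul_sum, ← Fin.sum_univ_eq_sum_range (fun k => (∏ l ∈ range s, (u j - z l)) *
        (ext x k * G Yf Zf m (d + k) (u j))) m, mul_sum, mul_sum]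
      refine sum_congr rfl fun k _ => ?_
      have := e1 k k.2
      rw [ext_lt x k.2]
      calc (∏ l ∈ range s, (u j - z l)) * (x k * G Yf Zf m (d + k) (u j))
          = x k * ((∏ l ∈ range s, (u j - z l)) * G Yf Zf m (d + k) (u j)) := by ring
        _ = _ := by rw [this]; ring
    have e11 : ∑ p ∈ range m, xq p * E Yf Uf m p (u j) =
        c * (σ ^ (m - 1) * ∑ p : Fin m, x' p * bas σ' u y m p (u j)) := by
      rw [← Fin.sum_univ_eq_sum_range (fun p => xq p * E Yf Uf m p (u j)) m, mul_sum, mul_sum]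
      refine sum_congr rfl fun p _ => ?_
      rw [e6 p p.2]
      simp only [hxq]
      rw [ext_lt x' p.2]; ring
    rw [e9, e11]
    apply mul_left_cancel₀ hZprod
    rw [e10, ← h j hj]
    have e12 : c * σ ^ (m - 1) = σ ^ s := by
      rw [hc, pow_add, mul_assoc, ← mul_pow, hσ, one_pow, mul_one]
    calc σ ^ s * ((∏ l ∈ range s, (u j - z l)) * ∑ p : Fin m, x' p * bas σ' u y m p (u j))
        = c * σ ^ (m - 1) *
          ((∏ l ∈ range s, (u j - z l)) * ∑ p : Fin m, x' p * bas σ' u y m p (u j)) := by rw [e12]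
      _ = _ := by ring
  have hxne : ∃ k < s, xp k ≠ 0 := by
    obtain ⟨i, hi⟩ := Function.ne_iff.mp hx
    refine ⟨d + i, by omega, ?_⟩
    simp only [hxp]
    rw [if_neg (by omega), show d + (i : ℕ) - d = i by omega, ext_lt x i.2]
    exact hi
  have hrel : ∀ l k, ∀ j < m, ∀ v, Yf l v = (σ * ((u j - yt l) / (u j - zz k))) * Zf k v +
      (σ' * ((zz k - yt l) / (zz k - u j))) * Uf j v := by
    intro l k j hj v
    simp only [hYf, hZf, hUf]
    have h1 := hzne k j hj
    have h2 : zz k - u j ≠ 0 := by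
      intro h0; apply h1; linarith
    have e1 : (zz k - yt l) / (zz k - u j) = -(zz k - yt l) / (u j - zz k) := by
      rw [show zz k - u j = -(u j - zz k) by ring, div_neg, neg_div]
    rw [e1]
    have e2 : σ' * (-(zz k - yt l) / (u j - zz k)) * (σ' * σ * (v - u j)) =
        (σ' * σ') * (σ * ((-(zz k - yt l) / (u j - zz k)) * (v - u j))) := by ring
    rw [e2, hσ', one_mul]
    field_simp
    ring
  have hA := step_alt Yf Zf s m Uf u (fun l k j => σ * ((u j - yt l) / (u j - zz k)))
    (fun l k j => σ' * ((zz k - yt l) / (zz k - u j)))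
    (fun l k j hj => hyt1 l k j hj) (fun l k j hj => hyt2 l k j hj) hrel
    (fun j _ => by simp [hUf])
    (fun i hi j hj hij => by
      simp only [hUf]
      refine mul_ne_zero (mul_ne_zero hσ0' hσ0) ?_
      intro h0
      exact hij (hu i hi j hj (by linarith)))
    (fun k j hj => hzne k j hj) xp xq hxne hdep
  -- remove the zeros
  have hA' : Alt (comb m xq (ext x)) (m + m) m := by
    refine alt_remove (c := comb m xq xp) (n := m) (d := d) ?_ ?_ ?_ ?_ (by omega)
    · intro i h1 h2
      simp only [comb]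
      rw [if_neg (by omega)]
      simp only [hxp]
      rw [if_pos (by omega)]
    · intro i hi
      simp only [comb]
      rw [if_pos hi, if_pos hi]
    · intro i hi
      simp only [comb]
      rw [if_neg (by omega), if_neg (by omega)]
      simp only [hxp]
      rw [if_neg (by omega), show i + d - m - d = i - m by omega]
    · rw [show m + m + d = m + s by omega]; exact hA
  obtain ⟨a, b, ha, hb, hab⟩ := alt_split (x := comb m xq (ext x)) (y := ext x) (m := m) (m' := m)
    (k := m) (fun i _ => rfl) (fun i _ => by simp [comb]) le_rfl le_rfl hA'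
  refine ⟨b, a, hb, ?_, by omega⟩
  have h1 := (alt_reverse ha).smul (c := -c) (neg_ne_zero.mpr hc0)
  refine h1.congr fun i hi => ?_
  simp only [comb, J, hxq]
  rw [if_pos (by omega), show m - 1 - (m - 1 - i) = i by omega,
    show m - (m - 1 - i) = i + 1 by omega, pow_succ]
  calc -c * ((-1) ^ i * -1 * (c * ext x' i)) = (c * c) * ((-1) ^ i * ext x' i) := by ring
    _ = _ := by rw [hcc, one_mul]

end Pool.Agent.Secant6
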