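import Mathlib
import Pool.Agent.Lib.QuadrupleSubspaces

/-!
# Three pairs of nested subspaces in diagonal normal form

The subspaces `H` of dimension `3p` which meet `A1, B1, C1` in dimension at least `p` and
`A2, B2, C2` in dimension at least `2p`.
-/

set_option autoImplicit false

namespace Pool.Agent.Secant6

open Module Pool.Agent.Quadruple

variable {K V : Type*} [Field K] [AddCommGroup V] [Module K V] {m : ℕ}

/-- Diagonal normal form for three pairs of nested subspaces. -/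
structure Triple (K V : Type*) [Field K] [AddCommGroup V] [Module K V] (m : ℕ)
    (A1 A2 B1 B2 C1 C2 : Submodule K V) where
  X : (Fin m → K) →ₗ[K] V
  Y : (Fin m → K) →ₗ[K] V
  Z : (Fin m → K) →ₗ[K] V
  τ : Fin m → K
  τ_inj : Function.Injective τ
  rX : LinearMap.range X = A2 ⊓ B2
  rY : LinearMap.range Y = B2 ⊓ C2
  rZ : LinearMap.range Z = C2 ⊓ A2
  iX : Function.Injective X
  iY : Function.Injective Y
  iZ : Function.Injective Z
  dA : ∀ a, X a - Z a ∈ A1
  dB : ∀ a, Y a - X a ∈ B1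
  dC : ∀ a, Z a - Y (fun i => τ i * a i) ∈ C1
  hA : A1 ≤ A2
  hB : B1 ≤ B2
  hC : C1 ≤ C2
  AC : A1 ⊓ C2 = ⊥
  BA : B1 ⊓ A2 = ⊥
  CB : C1 ⊓ B2 = ⊥
  ABC : A2 ⊓ B2 ⊓ C2 = ⊥

namespace Triple

variable {A1 A2 B1 B2 C1 C2 : Submodule K V} (N : Triple K V m A1 A2 B1 B2 C1 C2)

lemma XA (a : Fin m → K) : N.X a ∈ A2 := (N.rX.le ⟨a, rfl⟩).1
lemma XB (a : Fin m → K) : N.X a ∈ B2 := (N.rX.le ⟨a, rfl⟩).2
lemma YB (a : Fin m → K) : N.Y a ∈ B2 := (N.rY.le ⟨a, rfl⟩).1
lemma YC (a : Fin m → K) : N.Y a ∈ C2 := (N.rY.le ⟨a, rfl⟩).2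
lemma ZC (a : Fin m → K) : N.Z a ∈ C2 := (N.rZ.le ⟨a, rfl⟩).1
lemma ZA (a : Fin m → K) : N.Z a ∈ A2 := (N.rZ.le ⟨a, rfl⟩).2

include N in
lemma eq_zero_of_triple {v : V} (h1 : v ∈ A2) (h2 : v ∈ B2) (h3 : v ∈ C2) : v = 0 := by
  have : v ∈ A2 ⊓ B2 ⊓ C2 := ⟨⟨h1, h2⟩, h3⟩
  rw [N.ABC] at this
  exact this

lemma X_eq_zero {a : Fin m → K} (h : N.X a ∈ C2) : a = 0 :=
  N.iX (by rw [map_zero]; exact N.eq_zero_of_triple (N.XA a) (N.XB a) h)

lemma Y_eq_zero {a : Fin m → K} (h : N.Y a ∈ A2) : a = 0 :=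
  N.iY (by rw [map_zero]; exact N.eq_zero_of_triple h (N.YB a) (N.YC a))

lemma Z_eq_zero {a : Fin m → K} (h : N.Z a ∈ B2) : a = 0 :=
  N.iZ (by rw [map_zero]; exact N.eq_zero_of_triple (N.ZA a) h (N.ZC a))

/-- the sum of the three parametrisations -/
def Psi : ((Fin m → K) × (Fin m → K) × (Fin m → K)) →ₗ[K] V :=
  N.X.coprod (N.Y.coprod N.Z)

lemma Psi_apply (a b c : Fin m → K) : N.Psi (a, b, c) = N.X a + N.Y b + N.Z c := by
  simp [Psi, add_assoc]

lemma mem_A2 {a b c : Fin m → K} : N.X a + N.Y b + N.Z c ∈ A2 ↔ b = 0 := by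
  constructor
  · intro h
    apply N.Y_eq_zero
    have := A2.sub_mem h (A2.add_mem (N.XA a) (N.ZA c))
    convert this using 1; abel
  · rintro rfl
    rw [map_zero, add_zero]
    exact A2.add_mem (N.XA a) (N.ZA c)

lemma mem_B2 {a b c : Fin m → K} : N.X a + N.Y b + N.Z c ∈ B2 ↔ c = 0 := by
  constructor
  · intro h
    apply N.Z_eq_zero
    have := B2.sub_mem h (B2.add_mem (N.XB a) (N.YB b))
    convert this using 1; abel
  · rintro rfl
    rw [map_zero, add_zero]
    exact B2.add_mem (N.XB a) (N.YB b)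

lemma mem_C2 {a b c : Fin m → K} : N.X a + N.Y b + N.Z c ∈ C2 ↔ a = 0 := by
  constructor
  · intro h
    apply N.X_eq_zero
    have := C2.sub_mem h (C2.add_mem (N.YC b) (N.ZC c))
    convert this using 1; abel
  · rintro rfl
    rw [map_zero, zero_add]
    exact C2.add_mem (N.YC b) (N.ZC c)

lemma Psi_injective : Function.Injective N.Psi := by
  rw [← LinearMap.ker_eq_bot, LinearMap.ker_eq_bot']
  rintro ⟨a, b, c⟩ h
  rw [N.Psi_apply] at h
  have hb : b = 0 := N.mem_A2.mp (h ▸ A2.zero_mem)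
  have hc : c = 0 := N.mem_B2.mp (h ▸ B2.zero_mem)
  have ha : a = 0 := N.mem_C2.mp (h ▸ C2.zero_mem)
  rw [ha, hb, hc]; rfl

/-- multiplication by `τ` -/
def tau (a : Fin m → K) : Fin m → K := fun i => N.τ i * a i

lemma mem_A1 {a b c : Fin m → K} : N.X a + N.Y b + N.Z c ∈ A1 ↔ b = 0 ∧ c = -a := by
  constructor
  · intro h
    have hb : b = 0 := N.mem_A2.mp (N.hA h)
    refine ⟨hb, ?_⟩
    subst hb
    rw [map_zero, add_zero] at h
    have h1 : N.Z (a + c) ∈ A1 := by
      have := A1.sub_mem h (N.dA a)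
      rw [map_add]
      convert this using 1; abel
    have h2 : N.Z (a + c) ∈ A1 ⊓ C2 := ⟨h1, N.ZC _⟩
    rw [N.AC, Submodule.mem_bot] at h2
    have h3 : a + c = 0 := N.iZ (by rw [h2, map_zero])
    exact eq_neg_of_add_eq_zero_right h3
  · rintro ⟨rfl, rfl⟩
    rw [map_zero, add_zero, map_neg, ← sub_eq_add_neg]
    exact N.dA a

lemma mem_B1 {a b c : Fin m → K} : N.X a + N.Y b + N.Z c ∈ B1 ↔ c = 0 ∧ b = -a := by
  constructor
  · intro h
    have hc : c = 0 := N.mem_B2.mp (N.hB h)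
    refine ⟨hc, ?_⟩
    subst hc
    rw [map_zero, add_zero] at h
    have h1 : N.X (a + b) ∈ B1 := by
      have := B1.sub_mem h (N.dB b)
      rw [map_add]
      convert this using 1; abel
    have h2 : N.X (a + b) ∈ B1 ⊓ A2 := ⟨h1, N.XA _⟩
    rw [N.BA, Submodule.mem_bot] at h2
    have h3 : a + b = 0 := N.iX (by rw [h2, map_zero])
    exact eq_neg_of_add_eq_zero_right h3
  · rintro ⟨rfl, rfl⟩
    rw [map_zero, add_zero, map_neg]
    have := B1.neg_mem (N.dB a)
    convert this using 1; abel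

lemma mem_C1 {a b c : Fin m → K} : N.X a + N.Y b + N.Z c ∈ C1 ↔ a = 0 ∧ b = -N.tau c := by
  constructor
  · intro h
    have ha : a = 0 := N.mem_C2.mp (N.hC h)
    refine ⟨ha, ?_⟩
    subst ha
    rw [map_zero, zero_add] at h
    have h1 : N.Y (b + N.tau c) ∈ C1 := by
      have := C1.sub_mem h (N.dC c)
      rw [map_add]
      have e : N.Y b + N.Y (N.tau c) = N.Y b + N.Z c - (N.Z c - N.Y (N.tau c)) := by abel
      rw [e]
      exact this
    have h2 : N.Y (b + N.tau c) ∈ C1 ⊓ B2 := ⟨h1, N.YB _⟩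
    rw [N.CB, Submodule.mem_bot] at h2
    have h3 : b + N.tau c = 0 := N.iY (by rw [h2, map_zero])
    exact eq_neg_of_add_eq_zero_left h3
  · rintro ⟨rfl, rfl⟩
    rw [map_zero, zero_add, map_neg, neg_add_eq_sub]
    exact N.dC c

/-- The subspace attached to a set of indices. -/
def sub (S : Finset (Fin m)) : Submodule K V :=
  ((coordSub K S).prod ((coordSub K S).prod (coordSub K S))).map N.Psi

lemma mem_sub {S : Finset (Fin m)} {a b c : Fin m → K} :
    N.X a + N.Y b + N.Z c ∈ N.sub S ↔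
      a ∈ coordSub K S ∧ b ∈ coordSub K S ∧ c ∈ coordSub K S := by
  rw [← N.Psi_apply, sub, Submodule.mem_map]
  constructor
  · rintro ⟨x, hx, h⟩
    have := N.Psi_injective h
    subst this
    simpa [Submodule.mem_prod] using hx
  · intro h
    exact ⟨(a, b, c), by simpa [Submodule.mem_prod] using h, rfl⟩

lemma exists_of_mem_sub {S : Finset (Fin m)} {v : V} (hv : v ∈ N.sub S) :
    ∃ a ∈ coordSub K S, ∃ b ∈ coordSub K S, ∃ c ∈ coordSub K S,
      v = N.X a + N.Y b + N.Z c := by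
  rw [sub, Submodule.mem_map] at hv
  obtain ⟨⟨a, b, c⟩, h, rfl⟩ := hv
  simp only [Submodule.mem_prod] at h
  exact ⟨a, h.1, b, h.2.1, c, h.2.2, N.Psi_apply a b c⟩

lemma finrank_sub (S : Finset (Fin m)) : finrank K (N.sub S) = 3 * S.card := by
  rw [sub, ← (Submodule.equivMapOfInjective N.Psi N.Psi_injective _).finrank_eq,
    finrank_prod_sub, finrank_prod_sub, finrank_coordSub]
  ring

lemma sub_injective : Function.Injective N.sub := by
  classical
  intro S T h
  have : ∀ i, i ∈ S ↔ i ∈ T := by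
    intro i
    have e : ∀ U : Finset (Fin m), N.X (Pi.single i 1) + N.Y 0 + N.Z 0 ∈ N.sub U ↔ i ∈ U := by
      intro U
      rw [N.mem_sub, single_mem_coordSub one_ne_zero]
      exact ⟨fun h => h.1, fun h => ⟨h, Submodule.zero_mem _, Submodule.zero_mem _⟩⟩
    rw [← e S, ← e T, h]
  exact Finset.ext this

/-- If `H` meets two subspaces of dimension at least `2p` each, the intersection is at least
`p`-dimensional. -/
lemma inf_ge [FiniteDimensional K V] {H F G : Submodule K V} {p : ℕ} (hH : finrank K H = 3 * p)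
    (h1 : 2 * p ≤ finrank K ↥(H ⊓ F)) (h2 : 2 * p ≤ finrank K ↥(H ⊓ G)) :
    p ≤ finrank K ↥(H ⊓ (F ⊓ G)) := by
  have h3 := Submodule.finrank_sup_add_finrank_inf_eq (H ⊓ F) (H ⊓ G)
  have h4 : finrank K ↥((H ⊓ F) ⊔ (H ⊓ G)) ≤ finrank K H :=
    Submodule.finrank_mono (sup_le inf_le_left inf_le_left)
  have h5 : (H ⊓ F) ⊓ (H ⊓ G) = H ⊓ (F ⊓ G) := (inf_inf_distrib_left H F G).symm
  rw [h5] at h3
  omega

lemma finrank_map_inj {W : Type*} [AddCommGroup W] [Module K W] {f : W →ₗ[K] V}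
    (hf : Function.Injective f) (A : Submodule K W) :
    finrank K ↥(A.map f) = finrank K A :=
  (Submodule.equivMapOfInjective f hf A).finrank_eq.symm

lemma finrank_sub_A1 (S : Finset (Fin m)) : finrank K ↥(N.sub S ⊓ A1) = S.card := by
  have h : N.sub S ⊓ A1 = (coordSub K S).map (N.X - N.Z) := by
    ext v
    constructor
    · rintro ⟨hv1, hv2⟩
      obtain ⟨a, ha, b, hb, c, hc, rfl⟩ := N.exists_of_mem_sub hv1
      obtain ⟨rfl, rfl⟩ := N.mem_A1.mp hv2
      exact ⟨a, ha, by simp [sub_eq_add_neg]⟩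
    · rintro ⟨a, ha, rfl⟩
      have e : (N.X - N.Z) a = N.X a + N.Y 0 + N.Z (-a) := by simp [sub_eq_add_neg]
      rw [e]
      exact ⟨N.mem_sub.mpr ⟨ha, Submodule.zero_mem _, Submodule.neg_mem _ ha⟩,
        N.mem_A1.mpr ⟨rfl, rfl⟩⟩
  have hinj : Function.Injective (N.X - N.Z) := by
    rw [← LinearMap.ker_eq_bot, LinearMap.ker_eq_bot']
    intro a ha
    have e : N.Psi (a, 0, -a) = 0 := by
      rw [N.Psi_apply]
      simpa [sub_eq_add_neg] using ha
    have := N.Psi_injective (e.trans (map_zero _).symm)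
    exact (Prod.ext_iff.mp this).1
  rw [h, finrank_map_inj hinj, finrank_coordSub]

lemma finrank_sub_B1 (S : Finset (Fin m)) : finrank K ↥(N.sub S ⊓ B1) = S.card := by
  have h : N.sub S ⊓ B1 = (coordSub K S).map (N.X - N.Y) := by
    ext v
    constructor
    · rintro ⟨hv1, hv2⟩
      obtain ⟨a, ha, b, hb, c, hc, rfl⟩ := N.exists_of_mem_sub hv1
      obtain ⟨rfl, rfl⟩ := N.mem_B1.mp hv2
      exact ⟨a, ha, by simp [sub_eq_add_neg]⟩
    · rintro ⟨a, ha, rfl⟩
      have e : (N.X - N.Y) a = N.X a + N.Y (-a) + N.Z 0 := by simp [sub_eq_add_neg]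
      rw [e]
      exact ⟨N.mem_sub.mpr ⟨ha, Submodule.neg_mem _ ha, Submodule.zero_mem _⟩,
        N.mem_B1.mpr ⟨rfl, rfl⟩⟩
  have hinj : Function.Injective (N.X - N.Y) := by
    rw [← LinearMap.ker_eq_bot, LinearMap.ker_eq_bot']
    intro a ha
    have e : N.Psi (a, -a, 0) = 0 := by
      rw [N.Psi_apply]
      simpa [sub_eq_add_neg] using ha
    have := N.Psi_injective (e.trans (map_zero _).symm)
    exact (Prod.ext_iff.mp this).1
  rw [h, finrank_map_inj hinj, finrank_coordSub]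

/-- multiplication by `τ` as a linear map -/
def tauL : (Fin m → K) →ₗ[K] (Fin m → K) where
  toFun := N.tau
  map_add' := by intro a b; funext i; simp [tau, mul_add]
  map_smul' := by intro a b; funext i; simp [tau, mul_left_comm]

lemma tauL_apply (a : Fin m → K) : N.tauL a = N.tau a := rfl

lemma tau_mem {S : Finset (Fin m)} {a : Fin m → K} (ha : a ∈ coordSub K S) :
    N.tau a ∈ coordSub K S := by
  intro i hi
  simp [tau, ha i hi]

lemma finrank_sub_C1 (S : Finset (Fin m)) : finrank K ↥(N.sub S ⊓ C1) = S.card := by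
  have h : N.sub S ⊓ C1 = (coordSub K S).map (N.Z - N.Y ∘ₗ N.tauL) := by
    ext v
    constructor
    · rintro ⟨hv1, hv2⟩
      obtain ⟨a, ha, b, hb, c, hc, rfl⟩ := N.exists_of_mem_sub hv1
      obtain ⟨rfl, rfl⟩ := N.mem_C1.mp hv2
      refine ⟨c, hc, ?_⟩
      simp only [LinearMap.sub_apply, LinearMap.comp_apply, map_zero, zero_add, map_neg,
        tauL_apply]
      abel
    · rintro ⟨a, ha, rfl⟩
      have e : (N.Z - N.Y ∘ₗ N.tauL) a = N.X 0 + N.Y (-N.tau a) + N.Z a := by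
        simp only [LinearMap.sub_apply, LinearMap.comp_apply, map_zero, zero_add, map_neg,
          tauL_apply]
        abel
      rw [e]
      exact ⟨N.mem_sub.mpr ⟨Submodule.zero_mem _, Submodule.neg_mem _ (N.tau_mem ha), ha⟩,
        N.mem_C1.mpr ⟨rfl, rfl⟩⟩
  have hinj : Function.Injective (N.Z - N.Y ∘ₗ N.tauL) := by
    rw [← LinearMap.ker_eq_bot, LinearMap.ker_eq_bot']
    intro a ha
    have e : N.Psi (0, -N.tau a, a) = 0 := by
      rw [N.Psi_apply, ← ha]
      simp only [LinearMap.sub_apply, LinearMap.comp_apply, map_zero, zero_add, map_neg,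
        tauL_apply]
      abel
    have := N.Psi_injective (e.trans (map_zero _).symm)
    exact (Prod.ext_iff.mp (Prod.ext_iff.mp this).2).2
  rw [h, finrank_map_inj hinj, finrank_coordSub]

lemma finrank_sub_A2 (S : Finset (Fin m)) : finrank K ↥(N.sub S ⊓ A2) = 2 * S.card := by
  have h : N.sub S ⊓ A2 = ((coordSub K S).prod (coordSub K S)).map (N.X.coprod N.Z) := by
    ext v
    constructor
    · rintro ⟨hv1, hv2⟩
      obtain ⟨a, ha, b, hb, c, hc, rfl⟩ := N.exists_of_mem_sub hv1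
      obtain rfl := N.mem_A2.mp hv2
      exact ⟨(a, c), ⟨ha, hc⟩, by simp⟩
    · rintro ⟨⟨a, c⟩, ⟨ha, hc⟩, rfl⟩
      have e : (N.X.coprod N.Z) (a, c) = N.X a + N.Y 0 + N.Z c := by simp
      rw [e]
      exact ⟨N.mem_sub.mpr ⟨ha, Submodule.zero_mem _, hc⟩, N.mem_A2.mpr rfl⟩
  have hinj : Function.Injective (N.X.coprod N.Z) := by
    rw [← LinearMap.ker_eq_bot, LinearMap.ker_eq_bot']
    rintro ⟨a, c⟩ ha
    have e : N.Psi (a, 0, c) = 0 := by
      rw [N.Psi_apply]
      simpa using ha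
    have := N.Psi_injective (e.trans (map_zero _).symm)
    have h1 := Prod.ext_iff.mp this
    exact Prod.ext h1.1 (Prod.ext_iff.mp h1.2).2
  rw [h, finrank_map_inj hinj, finrank_prod_sub, finrank_coordSub]
  ring

lemma finrank_sub_B2 (S : Finset (Fin m)) : finrank K ↥(N.sub S ⊓ B2) = 2 * S.card := by
  have h : N.sub S ⊓ B2 = ((coordSub K S).prod (coordSub K S)).map (N.X.coprod N.Y) := by
    ext v
    constructor
    · rintro ⟨hv1, hv2⟩
      obtain ⟨a, ha, b, hb, c, hc, rfl⟩ := N.exists_of_mem_sub hv1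
      obtain rfl := N.mem_B2.mp hv2
      exact ⟨(a, b), ⟨ha, hb⟩, by simp⟩
    · rintro ⟨⟨a, b⟩, ⟨ha, hb⟩, rfl⟩
      have e : (N.X.coprod N.Y) (a, b) = N.X a + N.Y b + N.Z 0 := by simp
      rw [e]
      exact ⟨N.mem_sub.mpr ⟨ha, hb, Submodule.zero_mem _⟩, N.mem_B2.mpr rfl⟩
  have hinj : Function.Injective (N.X.coprod N.Y) := by
    rw [← LinearMap.ker_eq_bot, LinearMap.ker_eq_bot']
    rintro ⟨a, b⟩ ha
    have e : N.Psi (a, b, 0) = 0 := by
      rw [N.Psi_apply]
      simpa using ha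
    have := N.Psi_injective (e.trans (map_zero _).symm)
    have h1 := Prod.ext_iff.mp this
    exact Prod.ext h1.1 (Prod.ext_iff.mp h1.2).1
  rw [h, finrank_map_inj hinj, finrank_prod_sub, finrank_coordSub]
  ring

lemma finrank_sub_C2 (S : Finset (Fin m)) : finrank K ↥(N.sub S ⊓ C2) = 2 * S.card := by
  have h : N.sub S ⊓ C2 = ((coordSub K S).prod (coordSub K S)).map (N.Y.coprod N.Z) := by
    ext v
    constructor
    · rintro ⟨hv1, hv2⟩
      obtain ⟨a, ha, b, hb, c, hc, rfl⟩ := N.exists_of_mem_sub hv1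
      obtain rfl := N.mem_C2.mp hv2
      exact ⟨(b, c), ⟨hb, hc⟩, by simp⟩
    · rintro ⟨⟨b, c⟩, ⟨hb, hc⟩, rfl⟩
      have e : (N.Y.coprod N.Z) (b, c) = N.X 0 + N.Y b + N.Z c := by simp
      rw [e]
      exact ⟨N.mem_sub.mpr ⟨Submodule.zero_mem _, hb, hc⟩, N.mem_C2.mpr rfl⟩
  have hinj : Function.Injective (N.Y.coprod N.Z) := by
    rw [← LinearMap.ker_eq_bot, LinearMap.ker_eq_bot']
    rintro ⟨b, c⟩ ha
    have e : N.Psi (0, b, c) = 0 := by
      rw [N.Psi_apply]
      simpa using ha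
    have := N.Psi_injective (e.trans (map_zero _).symm)
    exact (Prod.ext_iff.mp this).2
  rw [h, finrank_map_inj hinj, finrank_prod_sub, finrank_coordSub]
  ring

/-- Classification. -/
theorem mem_iff [FiniteDimensional K V] [DecidableEq K] (p : ℕ) (H : Submodule K V) :
    (finrank K H = 3 * p ∧ p ≤ finrank K ↥(H ⊓ A1) ∧ 2 * p ≤ finrank K ↥(H ⊓ A2) ∧
      p ≤ finrank K ↥(H ⊓ B1) ∧ 2 * p ≤ finrank K ↥(H ⊓ B2) ∧
      p ≤ finrank K ↥(H ⊓ C1) ∧ 2 * p ≤ finrank K ↥(H ⊓ C2)) ↔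
      ∃ S : Finset (Fin m), S.card = p ∧ H = N.sub S := by
  constructor
  · rintro ⟨hH, hA1, hA2, hB1, hB2, hC1, hC2⟩
    set WX := H.comap N.X with hWX
    set WY := H.comap N.Y with hWY
    set WZ := H.comap N.Z with hWZ
    have hx : p ≤ finrank K WX := by
      rw [hWX, ← finrank_inf_of_range N.X N.iX H _ N.rX]
      exact inf_ge hH hA2 hB2
    have hy : p ≤ finrank K WY := by
      rw [hWY, ← finrank_inf_of_range N.Y N.iY H _ N.rY]
      exact inf_ge hH hB2 hC2
    have hz : p ≤ finrank K WZ := by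
      rw [hWZ, ← finrank_inf_of_range N.Z N.iZ H _ N.rZ]
      exact inf_ge hH hC2 hA2
    have hle : (WX.prod (WY.prod WZ)).map N.Psi ≤ H := by
      rintro _ ⟨⟨a, b, c⟩, h, rfl⟩
      simp only [SetLike.mem_coe, Submodule.mem_prod] at h
      rw [N.Psi_apply]
      exact H.add_mem (H.add_mem h.1 h.2.1) h.2.2
    have hfin : finrank K ↥((WX.prod (WY.prod WZ)).map N.Psi) =
        finrank K WX + (finrank K WY + finrank K WZ) := by
      rw [← (Submodule.equivMapOfInjective N.Psi N.Psi_injective _).finrank_eq,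
        finrank_prod_sub, finrank_prod_sub]
    have hle2 := Submodule.finrank_mono hle
    rw [hfin, hH] at hle2
    have hx' : finrank K WX = p := by omega
    have hy' : finrank K WY = p := by omega
    have hz' : finrank K WZ = p := by omega
    have hHeq : (WX.prod (WY.prod WZ)).map N.Psi = H :=
      Submodule.eq_of_le_of_finrank_eq hle (by rw [hfin, hH]; omega)
    have hdec : ∀ v ∈ H, ∃ a ∈ WX, ∃ b ∈ WY, ∃ c ∈ WZ, v = N.X a + N.Y b + N.Z c := by
      intro v hv
      rw [← hHeq] at hv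
      obtain ⟨⟨a, b, c⟩, h, rfl⟩ := hv
      simp only [SetLike.mem_coe, Submodule.mem_prod] at h
      exact ⟨a, h.1, b, h.2.1, c, h.2.2, N.Psi_apply a b c⟩
    -- the condition on A1
    have hXZ : WX = WZ := by
      have h1 : finrank K ↥(H ⊓ A1) ≤ finrank K ↥(WX ⊓ WZ) := by
        have h2 : H ⊓ A1 ≤ (WX ⊓ WZ).map (N.X - N.Z) := by
          rintro v ⟨hv1, hv2⟩
          obtain ⟨a, ha, b, hb, c, hc, rfl⟩ := hdec v hv1
          obtain ⟨rfl, rfl⟩ := N.mem_A1.mp hv2
          refine ⟨a, ⟨ha, ?_⟩, ?_⟩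
          · have := WZ.neg_mem hc
            rwa [neg_neg] at this
          · simp [sub_eq_add_neg]
        exact (Submodule.finrank_mono h2).trans (Submodule.finrank_map_le _ _)
      have h3 : WX ⊓ WZ = WX := Submodule.eq_of_le_of_finrank_le inf_le_left (by omega)
      have h4 : WX ⊓ WZ = WZ := Submodule.eq_of_le_of_finrank_le inf_le_right (by omega)
      rw [← h3, h4]
    have hXY : WX = WY := by
      have h1 : finrank K ↥(H ⊓ B1) ≤ finrank K ↥(WX ⊓ WY) := by
        have h2 : H ⊓ B1 ≤ (WX ⊓ WY).map (N.X - N.Y) := by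
          rintro v ⟨hv1, hv2⟩
          obtain ⟨a, ha, b, hb, c, hc, rfl⟩ := hdec v hv1
          obtain ⟨rfl, rfl⟩ := N.mem_B1.mp hv2
          refine ⟨a, ⟨ha, ?_⟩, ?_⟩
          · have := WY.neg_mem hb
            rwa [neg_neg] at this
          · simp [sub_eq_add_neg]
        exact (Submodule.finrank_mono h2).trans (Submodule.finrank_map_le _ _)
      have h3 : WX ⊓ WY = WX := Submodule.eq_of_le_of_finrank_le inf_le_left (by omega)
      have h4 : WX ⊓ WY = WY := Submodule.eq_of_le_of_finrank_le inf_le_right (by omega)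
      rw [← h3, h4]
    -- the condition on C1
    have hτ : ∀ a ∈ WX, (fun i => N.τ i * a i) ∈ WX := by
      let T := N.tauL
      have h1 : finrank K ↥(H ⊓ C1) ≤ finrank K ↥(WX ⊓ WX.comap T) := by
        have h2 : H ⊓ C1 ≤ (WX ⊓ WX.comap T).map (N.Z - N.Y ∘ₗ T) := by
          rintro v ⟨hv1, hv2⟩
          obtain ⟨a, ha, b, hb, c, hc, rfl⟩ := hdec v hv1
          obtain ⟨rfl, rfl⟩ := N.mem_C1.mp hv2
          refine ⟨c, ⟨by rw [hXZ]; exact hc, ?_⟩, ?_⟩
          · have := WY.neg_mem hb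
            rw [neg_neg, ← hXY] at this
            exact this
          · simp only [LinearMap.sub_apply, LinearMap.comp_apply, map_zero, zero_add, map_neg]
            rw [neg_add_eq_sub]
            rfl
        exact (Submodule.finrank_mono h2).trans (Submodule.finrank_map_le _ _)
      have h3 : WX ⊓ WX.comap T = WX := Submodule.eq_of_le_of_finrank_le inf_le_left (by omega)
      intro a ha
      rw [← h3] at ha
      exact ha.2
    obtain ⟨S, hS⟩ := eq_coordSub_of_invariant N.τ_inj WX hτ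
    refine ⟨S, ?_, ?_⟩
    · rw [← finrank_coordSub (K := K) S, ← hS, hx']
    · rw [← hHeq, sub, ← hXY, ← hXZ, hS]
  · rintro ⟨S, rfl, rfl⟩
    exact ⟨N.finrank_sub S, (N.finrank_sub_A1 S).ge, (N.finrank_sub_A2 S).ge,
      (N.finrank_sub_B1 S).ge, (N.finrank_sub_B2 S).ge, (N.finrank_sub_C1 S).ge,
      (N.finrank_sub_C2 S).ge⟩

/-- Elements of `(F + H) / H`. -/
lemma sub_mem_of_mkQ {H : Submodule K V} {u v : V} (h : H.mkQ u = H.mkQ v) : u - v ∈ H := by
  rw [← sub_eq_zero, ← map_sub] at h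
  rwa [Submodule.mkQ_apply, Submodule.Quotient.mk_eq_zero] at h

lemma mkQ_eq_of_sub_mem {H : Submodule K V} {u v : V} (h : u - v ∈ H) : H.mkQ u = H.mkQ v := by
  rw [← sub_eq_zero, ← map_sub, Submodule.mkQ_apply, Submodule.Quotient.mk_eq_zero]
  exact h

/-- The tangent spaces of the Schubert varieties meet in zero. -/
theorem tangent_trivial (S : Finset (Fin m)) (H : Submodule K V) (hH : H = N.sub S)
    (φ : ↥H →ₗ[K] (V ⧸ H))
    (hφA1 : ∀ v : ↥H, (v : V) ∈ A1 → ∃ f ∈ A1, φ v = H.mkQ f)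
    (hφA2 : ∀ v : ↥H, (v : V) ∈ A2 → ∃ f ∈ A2, φ v = H.mkQ f)
    (hφB1 : ∀ v : ↥H, (v : V) ∈ B1 → ∃ f ∈ B1, φ v = H.mkQ f)
    (hφB2 : ∀ v : ↥H, (v : V) ∈ B2 → ∃ f ∈ B2, φ v = H.mkQ f)
    (hφC1 : ∀ v : ↥H, (v : V) ∈ C1 → ∃ f ∈ C1, φ v = H.mkQ f)
    (hφC2 : ∀ v : ↥H, (v : V) ∈ C2 → ∃ f ∈ C2, φ v = H.mkQ f) : φ = 0 := by
  classical
  have hex : ∀ v ∈ H, ∃ a ∈ coordSub K S, ∃ b ∈ coordSub K S, ∃ c ∈ coordSub K S,
      v = N.X a + N.Y b + N.Z c := by
    intro v hv
    rw [hH] at hv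
    exact N.exists_of_mem_sub hv
  -- membership of the pieces
  have mX : ∀ a ∈ coordSub K S, N.X a ∈ H := by
    intro a ha
    have := (N.mem_sub (a := a) (b := 0) (c := 0)).mpr
      ⟨ha, Submodule.zero_mem _, Submodule.zero_mem _⟩
    rw [hH]
    simpa using this
  have mY : ∀ a ∈ coordSub K S, N.Y a ∈ H := by
    intro a ha
    have := (N.mem_sub (a := 0) (b := a) (c := 0)).mpr
      ⟨Submodule.zero_mem _, ha, Submodule.zero_mem _⟩
    rw [hH]
    simpa using this
  have mZ : ∀ a ∈ coordSub K S, N.Z a ∈ H := by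
    intro a ha
    have := (N.mem_sub (a := 0) (b := 0) (c := a)).mpr
      ⟨Submodule.zero_mem _, Submodule.zero_mem _, ha⟩
    rw [hH]
    simpa using this
  -- the components
  have key : ∀ i (hi : i ∈ S), ∃ u v w : Fin m → K,
      φ ⟨N.X (Pi.single i 1), mX _ ((single_mem_coordSub one_ne_zero).mpr hi)⟩ = H.mkQ (N.X u) ∧
      φ ⟨N.Y (Pi.single i 1), mY _ ((single_mem_coordSub one_ne_zero).mpr hi)⟩ = H.mkQ (N.Y v) ∧
      φ ⟨N.Z (Pi.single i 1), mZ _ ((single_mem_coordSub one_ne_zero).mpr hi)⟩ = H.mkQ (N.Z w) := by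
    intro i hi
    have hs : (Pi.single i 1 : Fin m → K) ∈ coordSub K S := (single_mem_coordSub one_ne_zero).mpr hi
    have hX : ∃ u, φ ⟨N.X (Pi.single i 1), mX _ hs⟩ = H.mkQ (N.X u) := by
      obtain ⟨α, hα, h1⟩ := hφA2 ⟨N.X (Pi.single i 1), mX _ hs⟩ (N.XA _)
      obtain ⟨β, hβ, h2⟩ := hφB2 ⟨N.X (Pi.single i 1), mX _ hs⟩ (N.XB _)
      have h3 := sub_mem_of_mkQ (h1.symm.trans h2)
      obtain ⟨a, ha, b, hb, c, hc, h4⟩ := hex _ h3
      have h5 : β + N.Y b ∈ A2 ⊓ B2 := by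
        refine ⟨?_, B2.add_mem hβ (N.YB b)⟩
        have e : β + N.Y b = α - (N.X a + N.Z c) := by
          have : α = β + (N.X a + N.Y b + N.Z c) := by rw [← h4]; abel
          rw [this]; abel
        rw [e]
        exact A2.sub_mem hα (A2.add_mem (N.XA a) (N.ZA c))
      rw [← N.rX] at h5
      obtain ⟨u, hu⟩ := h5
      refine ⟨u, ?_⟩
      rw [h2, hu]
      refine mkQ_eq_of_sub_mem ?_
      have e : β - (β + N.Y b) = -N.Y b := by abel
      rw [e]
      exact H.neg_mem (mY b hb)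
    have hY : ∃ u, φ ⟨N.Y (Pi.single i 1), mY _ hs⟩ = H.mkQ (N.Y u) := by
      obtain ⟨α, hα, h1⟩ := hφB2 ⟨N.Y (Pi.single i 1), mY _ hs⟩ (N.YB _)
      obtain ⟨β, hβ, h2⟩ := hφC2 ⟨N.Y (Pi.single i 1), mY _ hs⟩ (N.YC _)
      have h3 := sub_mem_of_mkQ (h1.symm.trans h2)
      obtain ⟨a, ha, b, hb, c, hc, h4⟩ := hex _ h3
      have h5 : β + N.Z c ∈ B2 ⊓ C2 := by
        refine ⟨?_, C2.add_mem hβ (N.ZC c)⟩
        have e : β + N.Z c = α - (N.X a + N.Y b) := by
          have : α = β + (N.X a + N.Y b + N.Z c) := by rw [← h4]; abel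
          rw [this]; abel
        rw [e]
        exact B2.sub_mem hα (B2.add_mem (N.XB a) (N.YB b))
      rw [← N.rY] at h5
      obtain ⟨u, hu⟩ := h5
      refine ⟨u, ?_⟩
      rw [h2, hu]
      refine mkQ_eq_of_sub_mem ?_
      have e : β - (β + N.Z c) = -N.Z c := by abel
      rw [e]
      exact H.neg_mem (mZ c hc)
    have hZ : ∃ u, φ ⟨N.Z (Pi.single i 1), mZ _ hs⟩ = H.mkQ (N.Z u) := by
      obtain ⟨α, hα, h1⟩ := hφC2 ⟨N.Z (Pi.single i 1), mZ _ hs⟩ (N.ZC _)
      obtain ⟨β, hβ, h2⟩ := hφA2 ⟨N.Z (Pi.single i 1), mZ _ hs⟩ (N.ZA _)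
      have h3 := sub_mem_of_mkQ (h1.symm.trans h2)
      obtain ⟨a, ha, b, hb, c, hc, h4⟩ := hex _ h3
      have h5 : β + N.X a ∈ C2 ⊓ A2 := by
        refine ⟨?_, A2.add_mem hβ (N.XA a)⟩
        have e : β + N.X a = α - (N.Y b + N.Z c) := by
          have : α = β + (N.X a + N.Y b + N.Z c) := by rw [← h4]; abel
          rw [this]; abel
        rw [e]
        exact C2.sub_mem hα (C2.add_mem (N.YC b) (N.ZC c))
      rw [← N.rZ] at h5
      obtain ⟨u, hu⟩ := h5
      refine ⟨u, ?_⟩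
      rw [h2, hu]
      refine mkQ_eq_of_sub_mem ?_
      have e : β - (β + N.X a) = -N.X a := by abel
      rw [e]
      exact H.neg_mem (mX a ha)
    obtain ⟨u, hu⟩ := hX
    obtain ⟨v, hv⟩ := hY
    obtain ⟨w, hw⟩ := hZ
    exact ⟨u, v, w, hu, hv, hw⟩
  have hzero : ∀ i (hi : i ∈ S),
      φ ⟨N.X (Pi.single i 1), mX _ ((single_mem_coordSub one_ne_zero).mpr hi)⟩ = 0 ∧
      φ ⟨N.Y (Pi.single i 1), mY _ ((single_mem_coordSub one_ne_zero).mpr hi)⟩ = 0 ∧
      φ ⟨N.Z (Pi.single i 1), mZ _ ((single_mem_coordSub one_ne_zero).mpr hi)⟩ = 0 := by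
    intro i hi
    have hs : (Pi.single i 1 : Fin m → K) ∈ coordSub K S := (single_mem_coordSub one_ne_zero).mpr hi
    obtain ⟨u, v, w, hu, hv, hw⟩ := key i hi
    -- A1
    have hwu : w - u ∈ coordSub K S := by
      have hmem : N.X (Pi.single i 1) - N.Z (Pi.single i 1) ∈ H :=
        H.sub_mem (mX _ hs) (mZ _ hs)
      obtain ⟨f, hf, h1⟩ := hφA1 ⟨_, hmem⟩ (N.dA _)
      have h2 : φ ⟨_, hmem⟩ = H.mkQ (N.X u) - H.mkQ (N.Z w) := by
        rw [← hu, ← hw, ← map_sub]; rfl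
      rw [h2, ← map_sub] at h1
      have h3 := sub_mem_of_mkQ h1
      obtain ⟨a, ha, b, hb, c, hc, h4⟩ := hex _ h3
      have h5 : f = N.X (u - a) + N.Y (-b) + N.Z (-w - c) := by
        have : f = N.X u - N.Z w - (N.X a + N.Y b + N.Z c) := by rw [← h4]; abel
        rw [this]; simp only [map_sub, map_neg]; abel
      rw [h5] at hf
      have h6 := (N.mem_A1.mp hf).2
      have e : w - u = -c - a := by
        have : w = -(-w - c) - c := by abel
        rw [this, h6]; abel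
      rw [e]
      exact Submodule.sub_mem _ (Submodule.neg_mem _ hc) ha
    have hvu : v - u ∈ coordSub K S := by
      have hmem : N.Y (Pi.single i 1) - N.X (Pi.single i 1) ∈ H :=
        H.sub_mem (mY _ hs) (mX _ hs)
      obtain ⟨f, hf, h1⟩ := hφB1 ⟨_, hmem⟩ (N.dB _)
      have h2 : φ ⟨_, hmem⟩ = H.mkQ (N.Y v) - H.mkQ (N.X u) := by
        rw [← hu, ← hv, ← map_sub]; rfl
      rw [h2, ← map_sub] at h1
      have h3 := sub_mem_of_mkQ h1
      obtain ⟨a, ha, b, hb, c, hc, h4⟩ := hex _ h3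
      have h5 : f = N.X (-u - a) + N.Y (v - b) + N.Z (-c) := by
        have : f = N.Y v - N.X u - (N.X a + N.Y b + N.Z c) := by rw [← h4]; abel
        rw [this]; simp only [map_sub, map_neg]; abel
      rw [h5] at hf
      have h6 := (N.mem_B1.mp hf).2
      have e : v - u = a + b := by
        have : v = (v - b) + b := by abel
        rw [this, h6]; abel
      rw [e]
      exact Submodule.add_mem _ ha hb
    have hτ : (fun j => N.τ i * v j) - N.tau w ∈ coordSub K S := by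
      have hmem : N.Z (Pi.single i 1) - N.Y (fun j => N.τ j * (Pi.single i 1 : Fin m → K) j) ∈ H :=
        H.sub_mem (mZ _ hs) (mY _ (N.tau_mem hs))
      obtain ⟨f, hf, h1⟩ := hφC1 ⟨_, hmem⟩ (N.dC _)
      have e0 : (fun j => N.τ j * (Pi.single i 1 : Fin m → K) j) =
          N.τ i • (Pi.single i 1 : Fin m → K) := by
        funext j
        by_cases hj : j = i
        · subst hj; simp
        · simp [hj]
      have h2 : φ ⟨_, hmem⟩ = H.mkQ (N.Z w) - N.τ i • H.mkQ (N.Y v) := by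
        rw [← hw, ← hv, ← map_smul, ← map_sub]
        congr 1
        apply Subtype.ext
        simp only [e0, map_smul, Submodule.coe_sub, Submodule.coe_smul]
      rw [h2, ← map_smul, ← map_sub, ← map_smul] at h1
      have h3 := sub_mem_of_mkQ h1
      obtain ⟨a, ha, b, hb, c, hc, h4⟩ := hex _ h3
      have h5 : f = N.X (-a) + N.Y (-(N.τ i • v) - b) + N.Z (w - c) := by
        have : f = N.Z w - N.Y (N.τ i • v) - (N.X a + N.Y b + N.Z c) := by rw [← h4]; abel
        rw [this]; simp only [map_sub, map_neg]; abel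
      rw [h5] at hf
      have h6 := (N.mem_C1.mp hf).2
      have e : (fun j => N.τ i * v j) - N.tau w = -b - N.tau c := by
        have h7 : N.tau (w - c) = N.tau w - N.tau c := by
          funext j; simp [tau, mul_sub]
        have h8 : N.τ i • v = N.tau w - N.tau c - b := by
          rw [h7] at h6
          have : N.τ i • v = -(-(N.τ i • v) - b) - b := by abel
          rw [this, h6]; abel
        have h9 : (fun j => N.τ i * v j) = N.τ i • v := rfl
        rw [h9, h8]; abel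
      rw [e]
      exact Submodule.sub_mem _ (Submodule.neg_mem _ hb) (N.tau_mem hc)
    have hu0 : u ∈ coordSub K S := by
      intro j hj
      have h1 := hwu j hj
      have h2 := hvu j hj
      have h3 := hτ j hj
      simp only [Pi.sub_apply, tau] at h1 h2 h3
      have h4 : w j = u j := sub_eq_zero.mp h1
      have h5 : v j = u j := sub_eq_zero.mp h2
      rw [h4, h5] at h3
      have h6 : (N.τ i - N.τ j) * u j = 0 := by rw [← h3]; ring
      rcases mul_eq_zero.mp h6 with h7 | h7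
      · exfalso
        have := N.τ_inj (sub_eq_zero.mp h7)
        subst this
        exact hj hi
      · exact h7
    have hv0 : v ∈ coordSub K S := by
      have : v = (v - u) + u := by abel
      rw [this]; exact Submodule.add_mem _ hvu hu0
    have hw0 : w ∈ coordSub K S := by
      have : w = (w - u) + u := by abel
      rw [this]; exact Submodule.add_mem _ hwu hu0
    refine ⟨?_, ?_, ?_⟩
    · rw [hu, Submodule.mkQ_apply, Submodule.Quotient.mk_eq_zero]; exact mX u hu0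
    · rw [hv, Submodule.mkQ_apply, Submodule.Quotient.mk_eq_zero]; exact mY v hv0
    · rw [hw, Submodule.mkQ_apply, Submodule.Quotient.mk_eq_zero]; exact mZ w hw0
  -- conclusion
  have hexp : ∀ a ∈ coordSub K S, a = ∑ i ∈ S, a i • (Pi.single i 1 : Fin m → K) := by
    intro a ha
    funext j
    simp only [Finset.sum_apply, Pi.smul_apply, smul_eq_mul, Pi.single_apply, mul_ite, mul_one,
      mul_zero, Finset.sum_ite_eq]
    split_ifs with h
    · rfl
    · exact ha j h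
  have hker : ∀ v : ↥H, v ∈ LinearMap.ker φ := by
    intro v
    obtain ⟨a, ha, b, hb, c, hc, h1⟩ := hex _ v.2
    have hgen : ∀ (F : (Fin m → K) →ₗ[K] V) (mF : ∀ a ∈ coordSub K S, F a ∈ H)
        (_ : ∀ i (hi : i ∈ S), φ ⟨F (Pi.single i 1), mF _ ((single_mem_coordSub one_ne_zero).mpr hi)⟩ = 0)
        (a : Fin m → K) (ha : a ∈ coordSub K S), φ ⟨F a, mF a ha⟩ = 0 := by
      intro F mF hF a ha
      have e : (⟨F a, mF a ha⟩ : ↥H) = ∑ i : S, a i • (⟨F (Pi.single (i : Fin m) 1),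
          mF _ ((single_mem_coordSub one_ne_zero).mpr i.2)⟩ : ↥H) := by
        apply Subtype.ext
        rw [Submodule.coe_sum]
        simp only [Submodule.coe_smul]
        conv_lhs => rw [hexp a ha]
        rw [map_sum, ← Finset.sum_coe_sort S]
        simp only [map_smul]
      rw [e, map_sum]
      refine Finset.sum_eq_zero fun i _ => ?_
      rw [map_smul, hF i i.2, smul_zero]
    have e : v = ⟨N.X a, mX a ha⟩ + ⟨N.Y b, mY b hb⟩ + ⟨N.Z c, mZ c hc⟩ := Subtype.ext h1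
    rw [LinearMap.mem_ker, e, map_add, map_add,
      hgen N.X mX (fun i hi => (hzero i hi).1) a ha,
      hgen N.Y mY (fun i hi => (hzero i hi).2.1) b hb,
      hgen N.Z mZ (fun i hi => (hzero i hi).2.2) c hc]
    simp
  ext v
  exact hker v

end Triple

end Pool.Agent.Secant6
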