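import Mathlib
import Pool.Agent.Secant6.StepVD
import Pool.Agent.Lib.SecantQuadruple

/-!
# The monodromy of three secant flags
-/

set_option autoImplicit false

namespace Pool.Agent.Secant6

open Finset Matrix Pool.Agent.SignAlternation

/-- `∏_{l < s} (x - v l)`. -/
noncomputable def pr (v : ℕ → ℝ) (s : ℕ) (x : ℝ) : ℝ := ∏ l ∈ range s, (x - v l)

/-- The same as a polynomial. -/
noncomputable def prP (v : ℕ → ℝ) (s : ℕ) : Polynomial ℝ :=
  ∏ l ∈ range s, (Polynomial.X - Polynomial.C (v l))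

lemma eval_prP (v : ℕ → ℝ) (s : ℕ) (x : ℝ) : (prP v s).eval x = pr v s x := by
  simp [prP, pr, Polynomial.eval_prod]

lemma pr_ne_zero {v : ℕ → ℝ} {s : ℕ} {x : ℝ} (h : ∀ l < s, x ≠ v l) : pr v s x ≠ 0 := by
  rw [pr, prod_ne_zero_iff]
  intro l hl
  exact sub_ne_zero.mpr (h l (mem_range.mp hl))

lemma bas_eq_bern (σ : ℝ) (t z : ℕ → ℝ) (m k : ℕ) (x : ℝ) :
    bas σ t z m k x = σ ^ k * (-1) ^ (m - 1 - k) * (bern z t m k).eval x := by
  rw [bas, bern, Polynomial.eval_mul, Polynomial.eval_prod, Polynomial.eval_prod]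
  simp only [Polynomial.eval_sub, Polynomial.eval_C, Polynomial.eval_X]
  have e : (∏ l ∈ range (m - 1 - k), (z l - x)) =
      (-1) ^ (m - 1 - k) * ∏ l ∈ range (m - 1 - k), (x - z l) := by
    have : ∀ l ∈ range (m - 1 - k), z l - x = (-1) * (x - z l) := fun l _ => by ring
    rw [prod_congr rfl this, prod_mul_distrib, prod_const, card_range]
  rw [e]
  have h1 : ((-1 : ℝ) ^ (m - 1 - k)) * ((-1) ^ (m - 1 - k)) = 1 := by
    rw [← pow_add, ← two_mul, pow_mul]; simp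
  calc σ ^ k * ((∏ l ∈ range k, (x - t l)) * ∏ l ∈ range (m - 1 - k), (x - z l))
      = σ ^ k * (((-1 : ℝ) ^ (m - 1 - k)) * ((-1) ^ (m - 1 - k))) *
        ((∏ l ∈ range k, (x - t l)) * ∏ l ∈ range (m - 1 - k), (x - z l)) := by
        rw [h1]; ring
    _ = _ := by ring

/-- Values of the basis functions at the nodes `u`. -/
noncomputable def mat (m s : ℕ) (v w : ℕ → ℝ) (σ : ℝ) (t z u : ℕ → ℝ) :
    Matrix (Fin m) (Fin m) ℝ :=
  Matrix.of fun j k => pr v s (u j) * pr w s (u j) * bas σ t z m k (u j)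

lemma det_mat_ne_zero {m s : ℕ} {v w : ℕ → ℝ} {σ : ℝ} {t z u : ℕ → ℝ} (hσ : σ ≠ 0)
    (hzt : ∀ k l, z k ≠ t l) (hu : ∀ i < m, ∀ j < m, u i = u j → i = j)
    (hv : ∀ j < m, ∀ l < s, u j ≠ v l) (hw : ∀ j < m, ∀ l < s, u j ≠ w l) :
    (mat m s v w σ t z u).det ≠ 0 := by
  have e : mat m s v w σ t z u =
      (Matrix.of fun j i : Fin m => (prP v s * prP w s * bern z t m i).eval (u j)) *
      Matrix.diagonal (fun k : Fin m => σ ^ (k : ℕ) * (-1) ^ (m - 1 - (k : ℕ))) := by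
    ext j k
    rw [Matrix.mul_diagonal]
    simp only [mat, Matrix.of_apply, Polynomial.eval_mul, eval_prP, bas_eq_bern]
    ring
  rw [e, Matrix.det_mul, Matrix.det_diagonal]
  refine mul_ne_zero ?_ (prod_ne_zero_iff.mpr fun k _ =>
    mul_ne_zero (pow_ne_zero _ hσ) (pow_ne_zero _ (by norm_num)))
  refine det_eval_ne_zero (u := fun j : Fin m => u j) hzt
    (fun i j h => Fin.ext (hu i i.2 j j.2 h)) (prP v s * prP w s) ?_
  intro j
  rw [Polynomial.eval_mul, eval_prP, eval_prP]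
  exact mul_ne_zero (pr_ne_zero (hv j j.2)) (pr_ne_zero (hw j j.2))

/-- The matrix of one step. -/
lemma step_matrix {m s : ℕ} (hms : m ≤ s) (hm : 0 < m) {σ σ' : ℝ} (hσ : σ * σ = 1)
    (hσ' : σ' * σ' = 1) (v u y t z : ℕ → ℝ) (hu : ∀ i < m, ∀ j < m, u i = u j → i = j)
    (hv : ∀ j < m, ∀ l < s, u j ≠ v l)
    (hy1 : ∀ l, ∀ k, ∀ j < m, 0 < σ * ((u j - y l) / (u j - z k)))
    (ht1 : ∀ l, ∀ k, ∀ j < m, 0 < σ * ((u j - t l) / (u j - z k)))
    (hy2 : ∀ l, ∀ k, ∀ j < m, 0 < σ' * ((z k - y l) / (z k - u j)))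
    (ht2 : ∀ l, ∀ k, ∀ j < m, 0 < σ' * ((z k - t l) / (z k - u j)))
    (Mt Ms : Matrix (Fin m) (Fin m) ℝ)
    (hMt : ∀ j k, Mt j k = pr v s (u j) * pr z s (u j) * bas σ' u y m k (u j))
    (hMs : ∀ j k, Ms j k = pr v s (u j) * pr y s (u j) * bas σ t z m k (u j))
    (hdet : Mt.det ≠ 0) : StrictVD (Mt⁻¹ * Ms) := by
  intro x hx
  set x' : Fin m → ℝ := (Mt⁻¹ * Ms) *ᵥ x with hx'
  have h1 : Mt *ᵥ x' = Ms *ᵥ x := by
    rw [hx', mulVec_mulVec, ← Matrix.mul_assoc,
      Matrix.mul_nonsing_inv _ (isUnit_iff_ne_zero.mpr hdet), Matrix.one_mul]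
  refine step_vd hms hm hσ hσ' u y t z hu hy1 ht1 hy2 ht2 x x' hx ?_
  intro j hj
  have h2 := congrFun h1 ⟨j, hj⟩
  simp only [mulVec, dotProduct, hMt, hMs] at h2
  have hv0 : pr v s (u j) ≠ 0 := pr_ne_zero (hv j hj)
  apply mul_left_cancel₀ hv0
  calc pr v s (u j) * ((∏ l ∈ range s, (u j - z l)) * ∑ p : Fin m, x' p * bas σ' u y m p (u j))
      = ∑ p : Fin m, pr v s (u j) * pr z s (u j) * bas σ' u y m p (u j) * x' p := by
        rw [mul_sum, mul_sum]
        refine sum_congr rfl fun p _ => ?_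
        rw [pr, pr]; ring
    _ = ∑ k : Fin m, pr v s (u j) * pr y s (u j) * bas σ t z m k (u j) * x k := h2
    _ = _ := by
        rw [mul_sum, mul_sum]
        refine sum_congr rfl fun p _ => ?_
        rw [pr, pr]; ring

lemma StrictVD_mul {m : ℕ} {M N : Matrix (Fin m) (Fin m) ℝ} (hM : StrictVD M)
    (hN : StrictVD N) : StrictVD (M * N) := by
  intro v hv
  obtain ⟨k, l, h1, h2, h3⟩ := hN v hv
  have hNv : N *ᵥ v ≠ 0 := hN.mulVec_ne_zero hv
  obtain ⟨k', l', h1', h2', h3'⟩ := hM (N *ᵥ v) hNv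
  rw [mulVec_mulVec] at h2'
  have h4 := alt_add_alt_J h1' h2
  exact ⟨k, l', h1, h2', by omega⟩

section dual

/-- The polynomial attached to a functional. -/
noncomputable def funPoly {n : ℕ} (f : (Fin n → ℝ) →ₗ[ℝ] ℝ) : Polynomial ℝ :=
  ∑ b : Fin n, Polynomial.C (f (Pi.single b 1)) * Polynomial.X ^ (b : ℕ)

lemma eval_funPoly {n : ℕ} (f : (Fin n → ℝ) →ₗ[ℝ] ℝ) (x : ℝ) :
    (funPoly f).eval x = f (rpt n x) := by
  have e : rpt n x = ∑ b : Fin n, x ^ (b : ℕ) • (Pi.single b 1 : Fin n → ℝ) := by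
    funext c
    simp [rpt, Finset.sum_apply, Pi.single_apply]
  rw [e, map_sum, funPoly, Polynomial.eval_finsetSum]
  refine sum_congr rfl fun b _ => ?_
  rw [map_smul, Polynomial.eval_mul, Polynomial.eval_C, Polynomial.eval_pow, Polynomial.eval_X,
    smul_eq_mul, mul_comm]

lemma degree_funPoly {n : ℕ} (f : (Fin n → ℝ) →ₗ[ℝ] ℝ) : (funPoly f).degree < n := by
  refine lt_of_le_of_lt (Polynomial.degree_sum_le _ _) ?_
  rw [Finset.sup_lt_iff (by exact WithBot.bot_lt_coe n)]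
  intro b _
  refine lt_of_le_of_lt (Polynomial.degree_C_mul_X_pow_le _ _) ?_
  exact_mod_cast b.2

/-- The common vector. -/
theorem exists_vec {m s n : ℕ} (hn : n = m + 2 * s) (v w : ℕ → ℝ)
    (hv : ∀ i < s, ∀ j < s, v i = v j → i = j) (hw : ∀ i < s, ∀ j < s, w i = w j → i = j)
    (hvw : ∀ i j, v i ≠ w j) {σ : ℝ} (hσ : σ ≠ 0) (t z : ℕ → ℝ) (hzt : ∀ k l, z k ≠ t l)
    (u1 u2 : ℕ → ℝ) (α β : Fin m → ℝ)
    (h : ∀ k : Fin m, ∑ j : Fin m, α j * (pr v s (u1 j) * pr w s (u1 j) * bas σ t z m k (u1 j)) =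
      ∑ j : Fin m, β j * (pr v s (u2 j) * pr w s (u2 j) * bas σ t z m k (u2 j))) :
    ∃ ρ ρ' : Fin s → ℝ, (∑ j : Fin m, α j • rpt n (u1 j)) + ∑ l : Fin s, ρ l • rpt n (v l) =
      (∑ j : Fin m, β j • rpt n (u2 j)) + ∑ l : Fin s, ρ' l • rpt n (w l) := by
  classical
  set g : Fin s ⊕ Fin s → (Fin n → ℝ) := Sum.elim (fun l => rpt n (v l)) (fun l => rpt n (w l))
    with hg
  set x : Fin n → ℝ := (∑ j : Fin m, α j • rpt n (u1 j)) - ∑ j : Fin m, β j • rpt n (u2 j) with hx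
  have hmem : x ∈ Submodule.span ℝ (Set.range g) := by
    by_contra hcon
    obtain ⟨f, hf1, hf2⟩ := Submodule.exists_le_ker_of_notMem hcon
    apply hf1
    -- the polynomial of f
    have hroot1 : ∀ l < s, (funPoly f).eval (v l) = 0 := by
      intro l hl
      rw [eval_funPoly]
      have : rpt n (v l) ∈ Submodule.span ℝ (Set.range g) :=
        Submodule.subset_span ⟨Sum.inl ⟨l, hl⟩, rfl⟩
      exact hf2 this
    have hroot2 : ∀ l < s, (funPoly f).eval (w l) = 0 := by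
      intro l hl
      rw [eval_funPoly]
      have : rpt n (w l) ∈ Submodule.span ℝ (Set.range g) :=
        Submodule.subset_span ⟨Sum.inr ⟨l, hl⟩, rfl⟩
      exact hf2 this
    have hdvd : prP v s * prP w s ∣ funPoly f := by
      have h1 : prP v s ∣ funPoly f := by
        rw [prP]
        refine Finset.prod_dvd_of_coprime ?_ ?_
        · intro i hi j hj hij
          refine Polynomial.pairwise_coprime_X_sub_C (s := fun l : Fin s => v l) ?_
            (i := ⟨i, mem_range.mp hi⟩) (j := ⟨j, mem_range.mp hj⟩) ?_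
          · intro a b hab
            exact Fin.ext (hv a a.2 b b.2 hab)
          · intro h; exact hij (by simpa using congrArg Fin.val h)
        · intro l hl
          exact Polynomial.dvd_iff_isRoot.mpr (hroot1 l (mem_range.mp hl))
      have h2 : prP w s ∣ funPoly f := by
        rw [prP]
        refine Finset.prod_dvd_of_coprime ?_ ?_
        · intro i hi j hj hij
          refine Polynomial.pairwise_coprime_X_sub_C (s := fun l : Fin s => w l) ?_
            (i := ⟨i, mem_range.mp hi⟩) (j := ⟨j, mem_range.mp hj⟩) ?_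
          · intro a b hab
            exact Fin.ext (hw a a.2 b b.2 hab)
          · intro h; exact hij (by simpa using congrArg Fin.val h)
        · intro l hl
          exact Polynomial.dvd_iff_isRoot.mpr (hroot2 l (mem_range.mp hl))
      refine IsCoprime.mul_dvd ?_ h1 h2
      rw [prP, prP]
      refine IsCoprime.prod_left fun i _ => IsCoprime.prod_right fun j _ => ?_
      exact Polynomial.isCoprime_X_sub_C_of_isUnit_sub
        (isUnit_iff_ne_zero.mpr (sub_ne_zero.mpr (hvw i j)))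
    obtain ⟨q, hq⟩ := hdvd
    have hqdeg : q.degree < m := by
      by_cases hq0 : q = 0
      · rw [hq0, Polynomial.degree_zero]; exact WithBot.bot_lt_coe m
      have h1 := degree_funPoly f
      rw [hq, Polynomial.degree_mul, Polynomial.degree_mul] at h1
      have h2 : ∀ v : ℕ → ℝ, (prP v s).degree = (s : WithBot ℕ) := by
        intro v
        rw [prP, Polynomial.degree_prod]; simp
      rw [h2, h2, Polynomial.degree_eq_natDegree hq0] at h1
      rw [Polynomial.degree_eq_natDegree hq0]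
      have h3 : s + s + q.natDegree < n := by exact_mod_cast h1
      have : q.natDegree < m := by omega
      exact_mod_cast this
    obtain ⟨c, hc⟩ := bern_span z m t hzt q hqdeg
    have hval : ∀ y : ℝ, (funPoly f).eval y = ∑ k : Fin m,
        (c k * (σ ^ (k : ℕ) * (-1) ^ (m - 1 - (k : ℕ)))⁻¹) *
          (pr v s y * pr w s y * bas σ t z m k y) := by
      intro y
      rw [hq, Polynomial.eval_mul, Polynomial.eval_mul, eval_prP, eval_prP, hc,
        Polynomial.eval_finsetSum, mul_sum,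
        ← Fin.sum_univ_eq_sum_range (fun i => pr v s y * pr w s y *
          (Polynomial.C (c i) * bern z t m i).eval y) m]
      refine sum_congr rfl fun k _ => ?_
      rw [bas_eq_bern, Polynomial.eval_mul, Polynomial.eval_C]
      have h1 : σ ^ (k : ℕ) ≠ 0 := pow_ne_zero _ hσ
      have h2 : ((-1 : ℝ)) ^ (m - 1 - (k : ℕ)) ≠ 0 := pow_ne_zero _ (by norm_num)
      field_simp
    rw [hx, map_sub, map_sum, map_sum, sub_eq_zero]
    simp only [map_smul, smul_eq_mul, ← eval_funPoly, hval, mul_sum]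
    rw [sum_comm, sum_comm (s := (univ : Finset (Fin m))) (f := fun j k => β j * _)]
    refine sum_congr rfl fun k _ => ?_
    have h1 := h k
    calc ∑ j : Fin m, α j * ((c k * (σ ^ (k : ℕ) * (-1) ^ (m - 1 - (k : ℕ)))⁻¹) *
          (pr v s (u1 j) * pr w s (u1 j) * bas σ t z m k (u1 j)))
        = (c k * (σ ^ (k : ℕ) * (-1) ^ (m - 1 - (k : ℕ)))⁻¹) * ∑ j : Fin m, α j *
          (pr v s (u1 j) * pr w s (u1 j) * bas σ t z m k (u1 j)) := by
          rw [mul_sum]; refine sum_congr rfl fun j _ => by ring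
      _ = (c k * (σ ^ (k : ℕ) * (-1) ^ (m - 1 - (k : ℕ)))⁻¹) * ∑ j : Fin m, β j *
          (pr v s (u2 j) * pr w s (u2 j) * bas σ t z m k (u2 j)) := by rw [h1]
      _ = _ := by
          rw [mul_sum]; refine sum_congr rfl fun j _ => by ring
  rw [Submodule.mem_span_range_iff_exists_fun] at hmem
  obtain ⟨c, hc⟩ := hmem
  rw [Fintype.sum_sum_type] at hc
  simp only [hg, Sum.elim_inl, Sum.elim_inr] at hc
  refine ⟨fun l => -c (Sum.inl l), fun l => c (Sum.inr l), ?_⟩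
  have h1 : (∑ j : Fin m, α j • rpt n (u1 j)) =
      (∑ j : Fin m, β j • rpt n (u2 j)) + ((∑ l : Fin s, c (Sum.inl l) • rpt n (v l)) +
        ∑ l : Fin s, c (Sum.inr l) • rpt n (w l)) := by
    rw [hc, hx]; abel
  rw [h1]
  simp only [neg_smul, sum_neg_distrib]
  abel

end dual

/-- Six sequences of nodes, in three separated groups. -/
structure Nodes (m s : ℕ) (a1 a2 b1 b2 c1 c2 : ℕ → ℝ) : Prop where
  sep : ∃ p q : ℝ, (∀ l, a1 l < p) ∧ (∀ l, a2 l < p) ∧ (∀ l, p < b1 l) ∧ (∀ l, p < b2 l) ∧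
    (∀ l, b1 l < q) ∧ (∀ l, b2 l < q) ∧ (∀ l, q < c1 l) ∧ (∀ l, q < c2 l)
  a1_inj : ∀ i < s, ∀ j < s, a1 i = a1 j → i = j
  b1_inj : ∀ i < s, ∀ j < s, b1 i = b1 j → i = j
  c1_inj : ∀ i < s, ∀ j < s, c1 i = c1 j → i = j
  a2_inj : ∀ i < m, ∀ j < m, a2 i = a2 j → i = j
  b2_inj : ∀ i < m, ∀ j < m, b2 i = b2 j → i = j
  c2_inj : ∀ i < m, ∀ j < m, c2 i = c2 j → i = j
  a_ne : ∀ j < m, ∀ l < s, a2 j ≠ a1 l
  b_ne : ∀ j < m, ∀ l < s, b2 j ≠ b1 l
  c_ne : ∀ j < m, ∀ l < s, c2 j ≠ c1 l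

/-- The real data of the normal form. -/
theorem exists_real_data {m s n : ℕ} (hm : 0 < m) (hms : m ≤ s) (hn : n = m + 2 * s)
    {a1 a2 b1 b2 c1 c2 : ℕ → ℝ} (H : Nodes m s a1 a2 b1 b2 c1 c2) :
    ∃ (μ : Fin m → ℝ) (α β κ : Matrix (Fin m) (Fin m) ℝ), Function.Injective μ ∧
      (∀ i, μ i ≠ 0) ∧ α.det ≠ 0 ∧ β.det ≠ 0 ∧ κ.det ≠ 0 ∧
      (∀ i, ∃ ρ ρ' : Fin s → ℝ, (∑ j : Fin m, α i j • rpt n (a2 j)) +
        ∑ l : Fin s, ρ l • rpt n (a1 l) =
        (∑ j : Fin m, (μ i * β i j) • rpt n (b2 j)) + ∑ l : Fin s, ρ' l • rpt n (b1 l)) ∧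
      (∀ i, ∃ ρ ρ' : Fin s → ℝ, (∑ j : Fin m, α i j • rpt n (a2 j)) +
        ∑ l : Fin s, ρ l • rpt n (a1 l) =
        (∑ j : Fin m, κ i j • rpt n (c2 j)) + ∑ l : Fin s, ρ' l • rpt n (c1 l)) ∧
      (∀ i, ∃ ρ ρ' : Fin s → ℝ, (∑ j : Fin m, β i j • rpt n (b2 j)) +
        ∑ l : Fin s, ρ l • rpt n (b1 l) =
        (∑ j : Fin m, κ i j • rpt n (c2 j)) + ∑ l : Fin s, ρ' l • rpt n (c1 l)) := by
  obtain ⟨p, q, ha1, ha2, hb1, hb2, hb1', hb2', hc1, hc2⟩ := H.sep
  have hpq : p < q := (hb1 0).trans (hb1' 0)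
  -- the six matrices
  set HA := mat m s a1 b1 1 b2 c1 a2 with hHA
  set HB := mat m s a1 b1 1 b2 c1 b2 with hHB
  set GA := mat m s a1 c1 1 a2 b1 a2 with hGA
  set GC := mat m s a1 c1 1 a2 b1 c2 with hGC
  set RB := mat m s b1 c1 (-1) c2 a1 b2 with hRB
  set RC := mat m s b1 c1 (-1) c2 a1 c2 with hRC
  have dGA : GA.det ≠ 0 := det_mat_ne_zero one_ne_zero
    (fun k l => ((ha2 l).trans (hb1 k)).ne') H.a2_inj H.a_ne
    (fun j _ l _ => ((ha2 j).trans (hpq.trans (hc1 l))).ne)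
  have dHB : HB.det ≠ 0 := det_mat_ne_zero one_ne_zero
    (fun k l => ((hb2' l).trans (hc1 k)).ne') H.b2_inj
    (fun j _ l _ => ((ha1 l).trans (hb2 j)).ne') H.b_ne
  have dRC : RC.det ≠ 0 := det_mat_ne_zero (by norm_num)
    (fun k l => ((ha1 k).trans (hpq.trans (hc2 l))).ne) H.c2_inj
    (fun j _ l _ => ((hb1' l).trans (hc2 j)).ne') H.c_ne
  have uGA := isUnit_iff_ne_zero.mpr dGA
  have uHB := isUnit_iff_ne_zero.mpr dHB
  have uRC := isUnit_iff_ne_zero.mpr dRC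
  -- the three steps
  have hKa : StrictVD (GA⁻¹ * HA) := by
    refine step_matrix hms hm (σ := 1) (σ' := 1) (by norm_num) (by norm_num) a1 a2 b1 b2 c1
      H.a2_inj H.a_ne ?_ ?_ ?_ ?_ GA HA (fun j k => rfl) (fun j k => rfl) dGA
    · intro l k j _
      rw [one_mul]
      exact div_pos_of_neg_of_neg (sub_neg.mpr ((ha2 j).trans (hb1 l)))
        (sub_neg.mpr ((ha2 j).trans (hpq.trans (hc1 k))))
    · intro l k j _
      rw [one_mul]
      exact div_pos_of_neg_of_neg (sub_neg.mpr ((ha2 j).trans (hb2 l)))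
        (sub_neg.mpr ((ha2 j).trans (hpq.trans (hc1 k))))
    · intro l k j _
      rw [one_mul]
      exact div_pos (sub_pos.mpr ((hb1' l).trans (hc1 k)))
        (sub_pos.mpr ((ha2 j).trans (hpq.trans (hc1 k))))
    · intro l k j _
      rw [one_mul]
      exact div_pos (sub_pos.mpr ((hb2' l).trans (hc1 k)))
        (sub_pos.mpr ((ha2 j).trans (hpq.trans (hc1 k))))
  have hKc : StrictVD (RC⁻¹ * GC) := by
    refine step_matrix hms hm (σ := 1) (σ' := -1) (by norm_num) (by norm_num) c1 c2 a1 a2 b1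
      H.c2_inj H.c_ne ?_ ?_ ?_ ?_ RC GC (fun j k => by simp only [hRC, mat, Matrix.of_apply]; ring)
      (fun j k => by simp only [hGC, mat, Matrix.of_apply]; ring) dRC
    · intro l k j _
      rw [one_mul]
      exact div_pos (sub_pos.mpr ((ha1 l).trans (hpq.trans (hc2 j))))
        (sub_pos.mpr ((hb1' k).trans (hc2 j)))
    · intro l k j _
      rw [one_mul]
      exact div_pos (sub_pos.mpr ((ha2 l).trans (hpq.trans (hc2 j))))
        (sub_pos.mpr ((hb1' k).trans (hc2 j)))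
    · intro l k j _
      have := div_neg_of_pos_of_neg (sub_pos.mpr ((ha1 l).trans (hb1 k)))
        (sub_neg.mpr ((hb1' k).trans (hc2 j)))
      linarith
    · intro l k j _
      have := div_neg_of_pos_of_neg (sub_pos.mpr ((ha2 l).trans (hb1 k)))
        (sub_neg.mpr ((hb1' k).trans (hc2 j)))
      linarith
  have hKb : StrictVD (HB⁻¹ * RB) := by
    refine step_matrix hms hm (σ := -1) (σ' := 1) (by norm_num) (by norm_num) b1 b2 c1 c2 a1
      H.b2_inj H.b_ne ?_ ?_ ?_ ?_ HB RB (fun j k => by simp only [hHB, mat, Matrix.of_apply]; ring)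
      (fun j k => by simp only [hRB, mat, Matrix.of_apply]) dHB
    · intro l k j _
      have := div_neg_of_neg_of_pos (sub_neg.mpr ((hb2' j).trans (hc1 l)))
        (sub_pos.mpr ((ha1 k).trans (hb2 j)))
      linarith
    · intro l k j _
      have := div_neg_of_neg_of_pos (sub_neg.mpr ((hb2' j).trans (hc2 l)))
        (sub_pos.mpr ((ha1 k).trans (hb2 j)))
      linarith
    · intro l k j _
      rw [one_mul]
      exact div_pos_of_neg_of_neg (sub_neg.mpr ((ha1 k).trans (hpq.trans (hc1 l))))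
        (sub_neg.mpr ((ha1 k).trans (hb2 j)))
    · intro l k j _
      rw [one_mul]
      exact div_pos_of_neg_of_neg (sub_neg.mpr ((ha1 k).trans (hpq.trans (hc2 l))))
        (sub_neg.mpr ((ha1 k).trans (hb2 j)))
  set Ka := GA⁻¹ * HA with hKa'
  set Kc := RC⁻¹ * GC with hKc'
  set Kb := HB⁻¹ * RB with hKb'
  have hT : StrictVD (Kb * Kc * Ka) := StrictVD_mul (StrictVD_mul hKb hKc) hKa
  obtain ⟨μ, hμmono, hμroot⟩ := hT.exists_eigenvalues
  obtain ⟨V, hV, hVT⟩ := exists_left_eigenmatrix _ hμmono.injective hμroot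
  have detne : ∀ {M : Matrix (Fin m) (Fin m) ℝ}, StrictVD M → M.det ≠ 0 := by
    intro M hM h0
    obtain ⟨z, hz0, hz⟩ := Matrix.exists_mulVec_eq_zero_iff.mpr h0
    exact hM.mulVec_ne_zero hz0 hz
  have dinv : ∀ {M : Matrix (Fin m) (Fin m) ℝ}, M.det ≠ 0 → M⁻¹.det ≠ 0 := by
    intro M hM
    rw [Matrix.det_nonsing_inv, Ring.inverse_eq_inv']
    exact inv_ne_zero hM
  have hμ0 : ∀ i, μ i ≠ 0 := by
    have h1 := congrArg Matrix.det hVT
    rw [Matrix.det_mul V, Matrix.det_mul (Matrix.diagonal μ), Matrix.det_diagonal] at h1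
    have h2 : (∏ i, μ i) * V.det ≠ 0 := by
      rw [← h1]
      exact mul_ne_zero hV (detne hT)
    have h3 := left_ne_zero_of_mul h2
    rw [prod_ne_zero_iff] at h3
    exact fun i => h3 i (mem_univ i)
  refine ⟨μ, V * Kb * Kc * GA⁻¹, V * HB⁻¹, V * Kb * RC⁻¹, hμmono.injective, hμ0, ?_, ?_, ?_,
    ?_, ?_, ?_⟩
  · rw [Matrix.det_mul, Matrix.det_mul, Matrix.det_mul]
    exact mul_ne_zero (mul_ne_zero (mul_ne_zero hV (detne hKb)) (detne hKc)) (dinv dGA)
  · rw [Matrix.det_mul]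
    exact mul_ne_zero hV (dinv dHB)
  · rw [Matrix.det_mul, Matrix.det_mul]
    exact mul_ne_zero (mul_ne_zero hV (detne hKb)) (dinv dRC)
  · intro i
    refine exists_vec hn a1 b1 H.a1_inj H.b1_inj (fun i j => ((ha1 i).trans (hb1 j)).ne)
      (σ := 1) one_ne_zero b2 c1 (fun k l => ((hb2' l).trans (hc1 k)).ne') a2 b2 _ _ ?_
    intro k
    have h1 : (V * Kb * Kc * GA⁻¹) * HA = Matrix.diagonal μ * ((V * HB⁻¹) * HB) := by
      have e1 : (V * Kb * Kc * GA⁻¹) * HA = V * (Kb * Kc * Ka) := by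
        rw [hKa']; simp only [Matrix.mul_assoc]
      rw [e1, hVT, Matrix.mul_assoc, Matrix.nonsing_inv_mul _ uHB, Matrix.mul_one]
    have h2 := congrFun (congrFun h1 i) k
    rw [Matrix.mul_apply, Matrix.diagonal_mul, Matrix.mul_apply, mul_sum] at h2
    calc _ = ∑ j, (V * Kb * Kc * GA⁻¹) i j * HA j k := rfl
      _ = ∑ j, μ i * ((V * HB⁻¹) i j * HB j k) := h2
      _ = _ := by
        refine sum_congr rfl fun j _ => ?_
        simp only [hHB, mat, Matrix.of_apply]; ring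
  · intro i
    refine exists_vec hn a1 c1 H.a1_inj H.c1_inj
      (fun i j => ((ha1 i).trans (hpq.trans (hc1 j))).ne)
      (σ := 1) one_ne_zero a2 b1 (fun k l => ((ha2 l).trans (hb1 k)).ne') a2 c2 _ _ ?_
    intro k
    have h1 : (V * Kb * Kc * GA⁻¹) * GA = (V * Kb * RC⁻¹) * GC := by
      rw [Matrix.mul_assoc (V * Kb * Kc), Matrix.nonsing_inv_mul _ uGA, Matrix.mul_one, hKc']
      simp only [Matrix.mul_assoc]
    have h2 := congrFun (congrFun h1 i) k
    rw [Matrix.mul_apply, Matrix.mul_apply] at h2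
    exact h2
  · intro i
    refine exists_vec hn b1 c1 H.b1_inj H.c1_inj (fun i j => ((hb1' i).trans (hc1 j)).ne)
      (σ := -1) (by norm_num) c2 a1 (fun k l => ((ha1 k).trans (hpq.trans (hc2 l))).ne)
      b2 c2 _ _ ?_
    intro k
    have h1 : (V * HB⁻¹) * RB = (V * Kb * RC⁻¹) * RC := by
      rw [Matrix.mul_assoc (V * Kb), Matrix.nonsing_inv_mul _ uRC, Matrix.mul_one, hKb']
      simp only [Matrix.mul_assoc]
    have h2 := congrFun (congrFun h1 i) k
    rw [Matrix.mul_apply, Matrix.mul_apply] at h2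
    exact h2

end Pool.Agent.Secant6
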