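import Mathlib
import Pool.Agent.Lib.SecantPosition
import Pool.Agent.Secant6.Abstract
import Pool.Agent.Secant6.Monodromy

/-!
# The normal form of three secant flags

For three secant flags with points in separated intervals the members of dimensions `s` and
`m + s` of `ℂ^(m+2s)`, `m ≤ s`, are in diagonal normal form, with a real structure.
-/

set_option autoImplicit false

namespace Pool.Agent.Secant6

open Module Pool.Agent.SecantPosition Pool.Agent.Quadruple Pool.Agent.SignAlternation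

/-! ### Complexification -/

lemma cx_comb {k n : ℕ} (c : Fin k → ℝ) (u : ℕ → ℝ) (b : Fin n) :
    (((∑ j : Fin k, c j • rpt n (u j)) b : ℝ) : ℂ) =
      (∑ j : Fin k, (c j : ℂ) • gpt n (u j)) b := by
  simp only [rpt, gpt, Finset.sum_apply, Pi.smul_apply, smul_eq_mul]
  push_cast
  rfl

/-- a combination of points of the curve with real coefficients -/
noncomputable def vec (n : ℕ) {m s : ℕ} (α : Fin m → ℝ) (ρ : Fin s → ℝ) (u2 u1 : ℕ → ℝ) :
    Fin n → ℂ :=
  (∑ j : Fin m, (α j : ℂ) • gpt n (u2 j)) + ∑ l : Fin s, (ρ l : ℂ) • gpt n (u1 l)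

lemma vec_eq {m s n : ℕ} {α α' : Fin m → ℝ} {ρ ρ' : Fin s → ℝ} {u1 u2 v1 v2 : ℕ → ℝ}
    (h : (∑ j : Fin m, α j • rpt n (u2 j)) + ∑ l : Fin s, ρ l • rpt n (u1 l) =
      (∑ j : Fin m, α' j • rpt n (v2 j)) + ∑ l : Fin s, ρ' l • rpt n (v1 l)) :
    vec n α ρ u2 u1 = vec n α' ρ' v2 v1 := by
  funext b
  have h1 := congrArg (fun x : ℝ => (x : ℂ)) (congrFun h b)
  simp only [Pi.add_apply, Complex.ofReal_add, cx_comb] at h1
  exact h1

lemma star_gpt (n : ℕ) (x : ℝ) : star (gpt n x) = gpt n x := by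
  funext b
  simp [gpt]

lemma star_vec {n m s : ℕ} (α : Fin m → ℝ) (ρ : Fin s → ℝ) (u2 u1 : ℕ → ℝ) :
    star (vec n α ρ u2 u1) = vec n α ρ u2 u1 := by
  simp only [vec, star_add, star_sum, star_smul, star_gpt, RCLike.star_def, Complex.conj_ofReal]

/-! ### Membership -/

lemma gpt_mem {n d : ℕ} (hn : 0 < n) (t : Fin n → ℝ) {l : ℕ} (hl : l < d) (hd : d ≤ n) :
    gpt n (nodes hn t l) ∈ sflag t d := by
  rw [nodes_lt hn t (lt_of_lt_of_le hl hd)]
  exact Submodule.subset_span ⟨⟨l, lt_of_lt_of_le hl hd⟩, hl, rfl⟩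

lemma sum1_mem {n s : ℕ} (hn : 0 < n) (hs : s ≤ n) (t : Fin n → ℝ) (ρ : Fin s → ℝ) :
    ∑ l : Fin s, (ρ l : ℂ) • gpt n (nodes hn t l) ∈ sflag t s :=
  Submodule.sum_mem _ fun l _ => Submodule.smul_mem _ _ (gpt_mem hn t l.2 hs)

lemma vec_mem {n m s : ℕ} (hn : 0 < n) (hs : m + s ≤ n) (t : Fin n → ℝ) (α : Fin m → ℝ)
    (ρ : Fin s → ℝ) :
    vec n α ρ (fun j => nodes hn t (s + j)) (nodes hn t) ∈ sflag t (m + s) := by
  refine Submodule.add_mem _ ?_ ?_
  · exact Submodule.sum_mem _ fun j _ => Submodule.smul_mem _ _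
      (gpt_mem hn t (by have := j.2; omega) hs)
  · exact sflag_mono (by omega) _ (sum1_mem hn (by omega) t ρ)

/-- two vectors with the same leading part agree modulo the small member of the flag -/
lemma vec_sub_mem {n m s : ℕ} (hn : 0 < n) (hs : s ≤ n) (t : Fin n → ℝ) (α : Fin m → ℝ)
    (ρ ρ' : Fin s → ℝ) :
    vec n α ρ (fun j => nodes hn t (s + j)) (nodes hn t) -
      vec n α ρ' (fun j => nodes hn t (s + j)) (nodes hn t) ∈ sflag t s := by
  have e : vec n α ρ (fun j => nodes hn t (s + j)) (nodes hn t) -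
      vec n α ρ' (fun j => nodes hn t (s + j)) (nodes hn t) =
      ∑ l : Fin s, (ρ l : ℂ) • gpt n (nodes hn t l) -
        ∑ l : Fin s, (ρ' l : ℂ) • gpt n (nodes hn t l) := by
    simp only [vec]
    abel
  rw [e]
  exact Submodule.sub_mem _ (sum1_mem hn hs t ρ) (sum1_mem hn hs t ρ')

lemma nodes_inj {n : ℕ} (hn : 0 < n) {t : Fin n → ℝ} (ht : Function.Injective t) {i j : ℕ}
    (hi : i < n) (hj : j < n) (h : nodes hn t i = nodes hn t j) : i = j := by
  rw [nodes_lt hn t hi, nodes_lt hn t hj] at h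
  exact congrArg Fin.val (ht h)

/-- injectivity of the parametrisations -/
lemma injective_of_vec {n m s : ℕ} (hn : 0 < n) (hs : m + s ≤ n) {t : Fin n → ℝ}
    (ht : Function.Injective t) (α : Matrix (Fin m) (Fin m) ℝ) (hα : α.det ≠ 0)
    (ρ : Fin m → Fin s → ℝ) (x : Fin m → (Fin n → ℂ))
    (hx : ∀ i, x i = vec n (α i) (ρ i) (fun j => nodes hn t (s + j)) (nodes hn t)) :
    Function.Injective (Fintype.linearCombination ℂ x) := by
  rw [← LinearMap.ker_eq_bot, LinearMap.ker_eq_bot']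
  intro a ha
  rw [Fintype.linearCombination_apply] at ha
  have hli : LinearIndependent ℂ (fun c : Fin m ⊕ Fin s =>
      gpt n (Sum.elim (fun j : Fin m => nodes hn t (s + j)) (fun l : Fin s => nodes hn t l) c)) := by
    refine gpt_indep _ ?_ (by simpa using hs)
    rw [Sum.elim_injective]
    refine ⟨fun i j h => ?_, fun i j h => ?_, fun i j h => ?_⟩
    · have := nodes_inj hn ht (by have := i.2; omega) (by have := j.2; omega) h
      exact Fin.ext (by omega)
    · have := nodes_inj hn ht (by have := i.2; omega) (by have := j.2; omega) h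
      exact Fin.ext this
    · have := nodes_inj hn ht (by have := i.2; omega) (by have := j.2; omega) h
      have := j.2
      omega
  rw [Fintype.linearIndependent_iff] at hli
  have h4 := hli (Sum.elim (fun c => ∑ i, a i * (α i c : ℂ)) (fun c => ∑ i, a i * (ρ i c : ℂ))) (by
    rw [Fintype.sum_sum_type]
    simp only [Sum.elim_inl, Sum.elim_inr]
    rw [← ha]
    simp only [hx, vec, smul_add, Finset.sum_add_distrib]
    congr 1
    · simp only [Finset.smul_sum, smul_smul, Finset.sum_smul]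
      rw [Finset.sum_comm]
    · simp only [Finset.smul_sum, smul_smul, Finset.sum_smul]
      rw [Finset.sum_comm])
  have h5 : (α.map (algebraMap ℝ ℂ)).det ≠ 0 := by
    have := (algebraMap ℝ ℂ).map_det α
    rw [RingHom.mapMatrix_apply] at this
    rw [← this]
    exact (map_ne_zero _).mpr hα
  refine Matrix.eq_zero_of_vecMul_eq_zero h5 ?_
  funext c
  simp only [Matrix.vecMul, dotProduct, Matrix.map_apply,
    Complex.coe_algebraMap, Pi.zero_apply]
  exact h4 (Sum.inl c)

/-! ### Relative position of the three flags -/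

lemma finrank_three {n : ℕ} (hn : 0 < n) {t : Fin 3 → Fin n → ℝ}
    (ht : ∀ j, Function.Injective (t j)) (hord : ∀ j j', j < j' → ∀ a b, t j a < t j' b)
    {d0 d1 d2 : ℕ} (h0 : d0 ≤ n) (h1 : d1 ≤ n) (h2 : d2 ≤ n) :
    finrank ℂ ↥(sflag (t 0) d0 ⊓ sflag (t 1) d1 ⊓ sflag (t 2) d2) =
      n - ((n - d0) + (n - d1) + (n - d2)) := by
  have h := finrank_iInf_sflag hn t ht (fun j j' hne => by
    rcases lt_or_gt_of_ne hne with h | h
    · exact Or.inl (hord j j' h)
    · exact Or.inr fun a b => hord j' j h a b) ![d0, d1, d2] (fun j => by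
      fin_cases j
      · exact h0
      · exact h1
      · exact h2)
  have e : (⨅ j, sflag (t j) (![d0, d1, d2] j)) =
      sflag (t 0) d0 ⊓ sflag (t 1) d1 ⊓ sflag (t 2) d2 := by
    ext v
    simp [Submodule.mem_iInf, Fin.forall_fin_succ, and_assoc]
  rw [e, Fin.sum_univ_three] at h
  exact h

lemma exists_sep {n : ℕ} (hn : 0 < n) {u v : Fin n → ℝ} (h : ∀ a b, u a < v b) :
    ∃ p : ℝ, (∀ a, u a < p) ∧ ∀ b, p < v b := by
  have : Nonempty (Fin n) := ⟨⟨0, hn⟩⟩
  obtain ⟨a, ha⟩ := Finite.exists_max u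
  obtain ⟨b, hb⟩ := Finite.exists_min v
  obtain ⟨p, hp1, hp2⟩ := exists_between (h a b)
  exact ⟨p, fun c => (ha c).trans_lt hp1, fun c => hp2.trans_le (hb c)⟩

/-- The nodes of three sorted flags. -/
lemma nodes_of_flags {m s n : ℕ} (hn0 : 0 < n) (hms : m + s ≤ n)
    {t : Fin 3 → Fin n → ℝ} (ht : ∀ j, Function.Injective (t j))
    (hord : ∀ j j', j < j' → ∀ a b, t j a < t j' b) :
    Nodes m s (nodes hn0 (t 0)) (fun j => nodes hn0 (t 0) (s + j))
      (nodes hn0 (t 1)) (fun j => nodes hn0 (t 1) (s + j))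
      (nodes hn0 (t 2)) (fun j => nodes hn0 (t 2) (s + j)) where
  sep := by
    obtain ⟨p, hp1, hp2⟩ := exists_sep hn0 (hord 0 1 (by decide))
    obtain ⟨q, hq1, hq2⟩ := exists_sep hn0 (hord 1 2 (by decide))
    exact ⟨p, q, fun l => hp1 _, fun l => hp1 _, fun l => hp2 _, fun l => hp2 _,
      fun l => hq1 _, fun l => hq1 _, fun l => hq2 _, fun l => hq2 _⟩
  a1_inj := fun i hi j hj h => nodes_inj hn0 (ht 0) (by omega) (by omega) h
  b1_inj := fun i hi j hj h => nodes_inj hn0 (ht 1) (by omega) (by omega) h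
  c1_inj := fun i hi j hj h => nodes_inj hn0 (ht 2) (by omega) (by omega) h
  a2_inj := fun i hi j hj h => by
    have := nodes_inj hn0 (ht 0) (by omega) (by omega) h
    omega
  b2_inj := fun i hi j hj h => by
    have := nodes_inj hn0 (ht 1) (by omega) (by omega) h
    omega
  c2_inj := fun i hi j hj h => by
    have := nodes_inj hn0 (ht 2) (by omega) (by omega) h
    omega
  a_ne := fun j hj l hl h => by
    have := nodes_inj hn0 (ht 0) (by omega) (by omega) h
    omega
  b_ne := fun j hj l hl h => by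
    have := nodes_inj hn0 (ht 1) (by omega) (by omega) h
    omega
  c_ne := fun j hj l hl h => by
    have := nodes_inj hn0 (ht 2) (by omega) (by omega) h
    omega

/-- Three sorted secant flags are in diagonal normal form, with a real structure. -/
theorem exists_triple {m s n : ℕ} (hm : 0 < m) (hms : m ≤ s) (hn : n = m + 2 * s)
    {t : Fin 3 → Fin n → ℝ} (ht : ∀ j, Function.Injective (t j))
    (hord : ∀ j j', j < j' → ∀ a b, t j a < t j' b) :
    ∃ N : Triple ℂ (Fin n → ℂ) m (sflag (t 0) s) (sflag (t 0) (m + s))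
        (sflag (t 1) s) (sflag (t 1) (m + s)) (sflag (t 2) s) (sflag (t 2) (m + s)),
      (∀ a, N.X (star a) = star (N.X a)) ∧ (∀ a, N.Y (star a) = star (N.Y a)) ∧
        ∀ a, N.Z (star a) = star (N.Z a) := by
  classical
  have hn0 : 0 < n := by omega
  obtain ⟨μ, α, β, κ, hμi, hμ0, hα, hβ, hκ, H1, H2, H3⟩ :=
    exists_real_data hm hms hn (nodes_of_flags (m := m) (s := s) hn0 (by omega) ht hord)
  choose ρ1 ρ1' H1 using H1
  choose ρ2 ρ2' H2 using H2
  choose ρ3 ρ3' H3 using H3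
  have K1 : ∀ i, vec n (α i) (ρ1 i) (fun j => nodes hn0 (t 0) (s + j)) (nodes hn0 (t 0)) =
      vec n (fun j => μ i * β i j) (ρ1' i) (fun j => nodes hn0 (t 1) (s + j))
        (nodes hn0 (t 1)) := fun i => vec_eq (H1 i)
  have K2 : ∀ i, vec n (α i) (ρ2 i) (fun j => nodes hn0 (t 0) (s + j)) (nodes hn0 (t 0)) =
      vec n (κ i) (ρ2' i) (fun j => nodes hn0 (t 2) (s + j))
        (nodes hn0 (t 2)) := fun i => vec_eq (H2 i)
  have K3 : ∀ i, vec n (β i) (ρ3 i) (fun j => nodes hn0 (t 1) (s + j)) (nodes hn0 (t 1)) =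
      vec n (κ i) (ρ3' i) (fun j => nodes hn0 (t 2) (s + j))
        (nodes hn0 (t 2)) := fun i => vec_eq (H3 i)
  -- the three families of vectors
  obtain ⟨x, hx⟩ : ∃ x : Fin m → (Fin n → ℂ), x = fun i => vec n (α i) (ρ1 i)
    (fun j => nodes hn0 (t 0) (s + j)) (nodes hn0 (t 0)) := ⟨_, rfl⟩
  obtain ⟨z, hz⟩ : ∃ z : Fin m → (Fin n → ℂ), z = fun i => vec n (α i) (ρ2 i)
    (fun j => nodes hn0 (t 0) (s + j)) (nodes hn0 (t 0)) := ⟨_, rfl⟩
  obtain ⟨y, hy⟩ : ∃ y : Fin m → (Fin n → ℂ), y = fun i => vec n (β i) (ρ3 i)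
    (fun j => nodes hn0 (t 1) (s + j)) (nodes hn0 (t 1)) := ⟨_, rfl⟩
  have hx' : ∀ i, x i = vec n (fun j => μ i * β i j) (ρ1' i)
      (fun j => nodes hn0 (t 1) (s + j)) (nodes hn0 (t 1)) := fun i => by rw [hx]; exact K1 i
  have hz' : ∀ i, z i = vec n (κ i) (ρ2' i)
      (fun j => nodes hn0 (t 2) (s + j)) (nodes hn0 (t 2)) := fun i => by rw [hz]; exact K2 i
  have hy' : ∀ i, y i = vec n (κ i) (ρ3' i)
      (fun j => nodes hn0 (t 2) (s + j)) (nodes hn0 (t 2)) := fun i => by rw [hy]; exact K3 i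
  have hμy : ∀ i, (μ i : ℂ) • y i = vec n (fun j => μ i * β i j) (fun l => μ i * ρ3 i l)
      (fun j => nodes hn0 (t 1) (s + j)) (nodes hn0 (t 1)) := by
    intro i
    rw [hy]
    simp only [vec, smul_add, Finset.smul_sum, smul_smul, Complex.ofReal_mul]
  -- the parametrisations
  obtain ⟨X, hX⟩ : ∃ X : (Fin m → ℂ) →ₗ[ℂ] (Fin n → ℂ), X = Fintype.linearCombination ℂ x :=
    ⟨_, rfl⟩
  obtain ⟨Z, hZ⟩ : ∃ Z : (Fin m → ℂ) →ₗ[ℂ] (Fin n → ℂ), Z = Fintype.linearCombination ℂ z :=
    ⟨_, rfl⟩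
  obtain ⟨Y, hY⟩ : ∃ Y : (Fin m → ℂ) →ₗ[ℂ] (Fin n → ℂ), Y = Fintype.linearCombination ℂ
    (fun i => (μ i : ℂ) • y i) := ⟨_, rfl⟩
  have Xa : ∀ a, X a = ∑ i, a i • x i := fun a => by rw [hX, Fintype.linearCombination_apply]
  have Za : ∀ a, Z a = ∑ i, a i • z i := fun a => by rw [hZ, Fintype.linearCombination_apply]
  have Ya : ∀ a, Y a = ∑ i, a i • ((μ i : ℂ) • y i) := fun a => by
    rw [hY, Fintype.linearCombination_apply]
  have iX : Function.Injective X := by
    rw [hX]
    exact injective_of_vec hn0 (by omega) (ht 0) α hα ρ1 x (fun i => by rw [hx])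
  have iZ : Function.Injective Z := by
    rw [hZ]
    exact injective_of_vec hn0 (by omega) (ht 0) α hα ρ2 z (fun i => by rw [hz])
  have iY : Function.Injective Y := by
    have hdet : (Matrix.diagonal μ * β).det ≠ 0 := by
      rw [Matrix.det_mul, Matrix.det_diagonal]
      exact mul_ne_zero (Finset.prod_ne_zero_iff.mpr fun i _ => hμ0 i) hβ
    rw [hY]
    refine injective_of_vec hn0 (by omega) (ht 1) (Matrix.diagonal μ * β) hdet
      (fun i l => μ i * ρ3 i l) _ (fun i => ?_)
    rw [hμy]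
    congr 1
    funext j
    rw [Matrix.diagonal_mul]
  -- dimensions
  have d01 : finrank ℂ ↥(sflag (t 0) (m + s) ⊓ sflag (t 1) (m + s)) = m := by
    have := finrank_three hn0 ht hord (d0 := m + s) (d1 := m + s) (d2 := n) (by omega) (by omega)
      le_rfl
    rw [sflag_top (ht 2), inf_top_eq] at this
    rw [this]; omega
  have d12 : finrank ℂ ↥(sflag (t 1) (m + s) ⊓ sflag (t 2) (m + s)) = m := by
    have := finrank_three hn0 ht hord (d0 := n) (d1 := m + s) (d2 := m + s) le_rfl (by omega)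
      (by omega)
    rw [sflag_top (ht 0), top_inf_eq] at this
    rw [this]; omega
  have d20 : finrank ℂ ↥(sflag (t 2) (m + s) ⊓ sflag (t 0) (m + s)) = m := by
    have := finrank_three hn0 ht hord (d0 := m + s) (d1 := n) (d2 := m + s) (by omega) le_rfl
      (by omega)
    rw [sflag_top (ht 1), inf_top_eq] at this
    rw [inf_comm, this]; omega
  have hrange : ∀ (W : Submodule ℂ (Fin n → ℂ)) (ι : (Fin m → ℂ) →ₗ[ℂ] (Fin n → ℂ)),
      finrank ℂ W = m → Function.Injective ι → (∀ a, ι a ∈ W) → LinearMap.range ι = W := by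
    intro W ι hW hι hmem
    refine Submodule.eq_of_le_of_finrank_eq ?_ ?_
    · rintro _ ⟨a, rfl⟩; exact hmem a
    · rw [LinearMap.finrank_range_of_inj hι, hW]; simp
  have zero_of : ∀ {W : Submodule ℂ (Fin n → ℂ)}, finrank ℂ W = 0 → W = ⊥ :=
    fun h => Submodule.finrank_eq_zero.mp h
  refine ⟨{ X := X
            Y := Y
            Z := Z
            τ := fun i => ((μ i : ℂ))⁻¹
            τ_inj := fun i j h => hμi (Complex.ofReal_injective (inv_injective h))
            rX := hrange _ X d01 iX fun a => ?_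
            rY := hrange _ Y d12 iY fun a => ?_
            rZ := hrange _ Z d20 iZ fun a => ?_
            iX := iX
            iY := iY
            iZ := iZ
            dA := fun a => ?_
            dB := fun a => ?_
            dC := fun a => ?_
            hA := sflag_mono (by omega) _
            hB := sflag_mono (by omega) _
            hC := sflag_mono (by omega) _
            AC := zero_of ?_
            BA := zero_of ?_
            CB := zero_of ?_
            ABC := zero_of ?_ }, ?_, ?_, ?_⟩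
  · rw [Xa]
    refine Submodule.sum_mem _ fun i _ => Submodule.smul_mem _ _ ⟨?_, ?_⟩
    · rw [hx]; exact vec_mem hn0 (by omega) _ _ _
    · rw [hx']; exact vec_mem hn0 (by omega) _ _ _
  · rw [Ya]
    refine Submodule.sum_mem _ fun i _ => Submodule.smul_mem _ _
      (Submodule.smul_mem _ _ ⟨?_, ?_⟩)
    · rw [hy]; exact vec_mem hn0 (by omega) _ _ _
    · rw [hy']; exact vec_mem hn0 (by omega) _ _ _
  · rw [Za]
    refine Submodule.sum_mem _ fun i _ => Submodule.smul_mem _ _ ⟨?_, ?_⟩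
    · rw [hz']; exact vec_mem hn0 (by omega) _ _ _
    · rw [hz]; exact vec_mem hn0 (by omega) _ _ _
  · rw [Xa, Za, ← Finset.sum_sub_distrib]
    refine Submodule.sum_mem _ fun i _ => ?_
    rw [← smul_sub, hx, hz]
    exact Submodule.smul_mem _ _ (vec_sub_mem hn0 (by omega) _ _ _ _)
  · rw [Xa, Ya, ← Finset.sum_sub_distrib]
    refine Submodule.sum_mem _ fun i _ => ?_
    rw [← smul_sub, hx', hμy]
    exact Submodule.smul_mem _ _ (vec_sub_mem hn0 (by omega) _ _ _ _)
  · rw [Za, Ya, ← Finset.sum_sub_distrib]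
    refine Submodule.sum_mem _ fun i _ => ?_
    have h1 : (((μ i : ℂ))⁻¹ * a i) • ((μ i : ℂ) • y i) = a i • y i := by
      rw [smul_smul]
      congr 1
      have : (μ i : ℂ) ≠ 0 := by exact_mod_cast hμ0 i
      field_simp
    rw [h1, ← smul_sub, hz', hy']
    exact Submodule.smul_mem _ _ (vec_sub_mem hn0 (by omega) _ _ _ _)
  · have := finrank_three hn0 ht hord (d0 := s) (d1 := n) (d2 := m + s) (by omega) le_rfl
      (by omega)
    rw [sflag_top (ht 1), inf_top_eq] at this
    rw [this]; omega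
  · have := finrank_three hn0 ht hord (d0 := m + s) (d1 := s) (d2 := n) (by omega) (by omega)
      le_rfl
    rw [sflag_top (ht 2), inf_top_eq] at this
    rw [inf_comm, this]; omega
  · have := finrank_three hn0 ht hord (d0 := n) (d1 := m + s) (d2 := s) le_rfl (by omega)
      (by omega)
    rw [sflag_top (ht 0), top_inf_eq] at this
    rw [inf_comm, this]; omega
  · have := finrank_three hn0 ht hord (d0 := m + s) (d1 := m + s) (d2 := m + s) (by omega)
      (by omega) (by omega)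
    rw [this]; omega
  · intro a
    change X (star a) = star (X a)
    rw [Xa, Xa, star_sum]
    refine Finset.sum_congr rfl fun i _ => ?_
    rw [star_smul, hx, star_vec]; rfl
  · intro a
    change Y (star a) = star (Y a)
    rw [Ya, Ya, star_sum]
    refine Finset.sum_congr rfl fun i _ => ?_
    rw [star_smul, hμy, star_vec]; rfl
  · intro a
    change Z (star a) = star (Z a)
    rw [Za, Za, star_sum]
    refine Finset.sum_congr rfl fun i _ => ?_
    rw [star_smul, hz, star_vec]; rfl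

/-- The same with a name for `m + s`. -/
theorem exists_triple' {m s s' n : ℕ} (hm : 0 < m) (hms : m ≤ s) (hn : n = m + 2 * s)
    (hs' : s' = m + s)
    {t : Fin 3 → Fin n → ℝ} (ht : ∀ j, Function.Injective (t j))
    (hord : ∀ j j', j < j' → ∀ a b, t j a < t j' b) :
    ∃ N : Triple ℂ (Fin n → ℂ) m (sflag (t 0) s) (sflag (t 0) s')
        (sflag (t 1) s) (sflag (t 1) s') (sflag (t 2) s) (sflag (t 2) s'),
      (∀ a, N.X (star a) = star (N.X a)) ∧ (∀ a, N.Y (star a) = star (N.Y a)) ∧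
        ∀ a, N.Z (star a) = star (N.Z a) := by
  subst hs'
  exact exists_triple hm hms hn ht hord

/-- the solutions are real -/
lemma star_mem_sub {m n : ℕ} {A1 A2 B1 B2 C1 C2 : Submodule ℂ (Fin n → ℂ)}
    (N : Triple ℂ (Fin n → ℂ) m A1 A2 B1 B2 C1 C2)
    (hX : ∀ a, N.X (star a) = star (N.X a)) (hY : ∀ a, N.Y (star a) = star (N.Y a))
    (hZ : ∀ a, N.Z (star a) = star (N.Z a)) (S : Finset (Fin m)) {v : Fin n → ℂ}
    (hv : v ∈ N.sub S) : star v ∈ N.sub S := by
  obtain ⟨a, ha, b, hb, c, hc, rfl⟩ := N.exists_of_mem_sub hv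
  have hst : ∀ a ∈ coordSub ℂ S, star a ∈ coordSub ℂ S := by
    intro a ha
    rw [mem_coordSub] at ha ⊢
    intro i hi
    rw [Pi.star_apply, ha i hi, star_zero]
  rw [star_add, star_add, ← hX, ← hY, ← hZ, N.mem_sub]
  exact ⟨hst a ha, hst b hb, hst c hc⟩

end Pool.Agent.Secant6
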